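import Pool.Agent.H701R3.BR.Core

open MeasureTheory Set Filter Topology

namespace Pool.Agent.H701R3.BR

open Pool.Agent.H750F
open scoped Real

attribute [-instance] WithCStarModule.instCStarModuleComplex


variable {α : Type} [MeasurableSpace α] {μ : Measure α} [IsProbabilityMeasure μ]

theorem inner_pow (T : α ≃ᵐ α) (hT : MeasurePreserving T μ μ) (v u : L0 μ) (k : ℤ) :
    (inner ℂ ((U0 T hT ^ k) v) (u)) = ∫ x, (starRingEnd ℂ) ((v : Lp ℂ 2 μ) (pw T k x)) * (u : Lp ℂ 2 μ) x ∂μ := by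
  rw [Submodule.coe_inner, L2.inner_def]
  refine integral_congr_ae ?_
  filter_upwards [U0_pow_ae T hT v k] with x hx
  rw [RCLike.inner_apply, hx, mul_comm]

theorem inner_pow' (T : α ≃ᵐ α) (hT : MeasurePreserving T μ μ) (v u : L0 μ) (k : ℤ) :
    (inner ℂ (v) ((U0 T hT ^ k) u)) = ∫ x, (starRingEnd ℂ) ((v : Lp ℂ 2 μ) x) * (u : Lp ℂ 2 μ) (pw T k x) ∂μ := by
  rw [Submodule.coe_inner, L2.inner_def]
  refine integral_congr_ae ?_
  filter_upwards [U0_pow_ae T hT u k] with x hx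
  rw [RCLike.inner_apply, hx, mul_comm]

/-- a mean-zero square integrable function as an element of `L0` -/
noncomputable def mk0 (f : α → ℂ) (hf : MemLp f 2 μ) (h0 : ∫ x, f x ∂μ = 0) : L0 μ :=
  ⟨hf.toLp f, by rw [mem_L0, integral_congr_ae hf.coeFn_toLp, h0]⟩

theorem mk0_ae (f : α → ℂ) (hf : MemLp f 2 μ) (h0 : ∫ x, f x ∂μ = 0) :
    ((mk0 f hf h0 : L0 μ) : Lp ℂ 2 μ) =ᵐ[μ] f := hf.coeFn_toLp

theorem mk0_pw_ae (T : α ≃ᵐ α) (hT : MeasurePreserving T μ μ) (f : α → ℂ) (hf : MemLp f 2 μ)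
    (h0 : ∫ x, f x ∂μ = 0) (k : ℤ) :
    (fun x => ((mk0 f hf h0 : L0 μ) : Lp ℂ 2 μ) (pw T k x)) =ᵐ[μ] fun x => f (pw T k x) :=
  (mp_pw T hT k).quasiMeasurePreserving.ae_eq_comp (mk0_ae f hf h0)

omit [IsProbabilityMeasure μ] in
theorem mean_ofReal {f : α → ℝ} (h0 : ∫ x, f x ∂μ = 0) : ∫ x, ((f x : ℝ) : ℂ) ∂μ = 0 := by
  rw [integral_complex_ofReal, h0]; rfl

omit [IsProbabilityMeasure μ] in
theorem memLp_c {f : α → ℝ} (hf : MemLp f 2 μ) : MemLp (fun x => ((f x : ℝ) : ℂ)) 2 μ :=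
  hf.ofReal

/-- a real mean-zero square integrable function as an element of `L0` -/
noncomputable def c0 {f : α → ℝ} (hf : MemLp f 2 μ) (h0 : ∫ x, f x ∂μ = 0) : L0 μ :=
  mk0 (fun x => ((f x : ℝ) : ℂ)) (memLp_c hf) (mean_ofReal h0)

theorem c0_ae {f : α → ℝ} (hf : MemLp f 2 μ) (h0 : ∫ x, f x ∂μ = 0) :
    ((c0 hf h0 : L0 μ) : Lp ℂ 2 μ) =ᵐ[μ] fun x => ((f x : ℝ) : ℂ) := mk0_ae _ _ _

theorem c0_pw_ae (T : α ≃ᵐ α) (hT : MeasurePreserving T μ μ) {f : α → ℝ} (hf : MemLp f 2 μ)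
    (h0 : ∫ x, f x ∂μ = 0) (k : ℤ) :
    (fun x => ((c0 hf h0 : L0 μ) : Lp ℂ 2 μ) (pw T k x)) =ᵐ[μ]
      fun x => ((f (pw T k x) : ℝ) : ℂ) := mk0_pw_ae T hT _ _ _ k

theorem total_top {T : α ≃ᵐ α} {f : α → ℝ} {w : ℝ → ℝ} (h : Core μ T f w) :
    Z (U0 T h.mp) (c0 h.memLp h.mean) = ⊤ := by
  set F0 : L0 μ := c0 h.memLp h.mean with hF0
  unfold Z
  rw [Submodule.topologicalClosure_eq_top_iff, Submodule.eq_bot_iff]
  intro u hu
  have h1 : ∀ k : ℤ, ∫ x, ((f (pw T k x) : ℝ) : ℂ) * (u : Lp ℂ 2 μ) x ∂μ = 0 := by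
    intro k
    have h2 := (Submodule.mem_orthogonal _ _).mp hu _ (Submodule.subset_span ⟨k, rfl⟩)
    simp only at h2
    rw [inner_pow] at h2
    rw [← h2]
    refine integral_congr_ae ?_
    filter_upwards [c0_pw_ae T h.mp h.memLp h.mean k] with x hx
    rw [hF0, hx, Complex.conj_ofReal]
  have hu2 : MemLp (fun x => (u : Lp ℂ 2 μ) x) 2 μ := Lp.memLp _
  have hu0 : ∫ x, (u : Lp ℂ 2 μ) x ∂μ = 0 := (mem_L0 _).mp u.2
  have hui : Integrable (fun x => (u : Lp ℂ 2 μ) x) μ := hu2.integrable (by norm_num)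
  have hfi : ∀ k : ℤ, MemLp (fun x => f (pw T k x)) 2 μ := fun k =>
    h.memLp.comp_measurePreserving (mp_pw T h.mp k)
  have hpi : ∀ k : ℤ, Integrable (fun x => ((f (pw T k x) : ℝ) : ℂ) * (u : Lp ℂ 2 μ) x) μ :=
    fun k => (hfi k).ofReal.integrable_mul hu2
  have hre : (fun x => ((u : Lp ℂ 2 μ) x).re) =ᵐ[μ] 0 := by
    refine h.total _ hu2.re ?_ ?_
    · have := integral_re hui
      rw [hu0] at this
      simpa using this
    · intro k
      have := integral_re (hpi k)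
      rw [h1 k] at this
      simpa using this
  have him : (fun x => ((u : Lp ℂ 2 μ) x).im) =ᵐ[μ] 0 := by
    refine h.total _ hu2.im ?_ ?_
    · have := integral_im hui
      rw [hu0] at this
      simpa using this
    · intro k
      have := integral_im (hpi k)
      rw [h1 k] at this
      simpa using this
  apply Subtype.ext
  refine Lp.ext ?_
  filter_upwards [hre, him, Lp.coeFn_zero ℂ 2 μ] with x h2 h3 h4
  have h5 : ((0 : L0 μ) : Lp ℂ 2 μ) x = 0 := by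
    rw [Submodule.coe_zero]; exact h4
  rw [h5]
  exact Complex.ext (by simpa using h2) (by simpa using h3)

theorem corr_top {T : α ≃ᵐ α} {f : α → ℝ} {w : ℝ → ℝ} (h : Core μ T f w) (k : ℤ) :
    (inner ℂ ((U0 T h.mp ^ k) (c0 h.memLp h.mean)) (c0 h.memLp h.mean)) =
    ∫ x, fourier (-k) x * ((AddCircle.liftIoc (1:ℝ) 0 (sy w) x : ℝ) : ℂ) ∂hm := by
  set F0 : L0 μ := c0 h.memLp h.mean with hF0
  have hnat : ∀ n : ℕ, (inner ℂ ((U0 T h.mp ^ (n : ℤ)) F0) (F0)) =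
      ((∫ t in (0:ℝ)..1, w t * Real.cos (2 * π * n * t) : ℝ) : ℂ) := by
    intro n
    rw [inner_pow, ← h.corr, ← integral_complex_ofReal]
    refine integral_congr_ae ?_
    filter_upwards [c0_pw_ae T h.mp h.memLp h.mean n,
      c0_ae h.memLp h.mean] with x hx hy
    rw [hF0, hx, hy, Complex.conj_ofReal, pw_nat]
    push_cast
    ring
  rw [integral_lift (sy w) (fun x r => fourier (-k) x * ((r : ℝ) : ℂ)), integral_sy w h.w_int]
  obtain ⟨n, rfl | rfl⟩ := Int.eq_nat_or_neg k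
  · rw [hnat]
    congr 1
    refine intervalIntegral.integral_congr fun t _ => ?_
    have : 2 * π * ((-(n : ℤ) : ℤ) : ℝ) * t = -(2 * π * n * t) := by push_cast; ring
    rw [this, Real.cos_neg]
  · have h1 : (inner ℂ ((U0 T h.mp ^ (-(n : ℤ))) F0) (F0)) = (starRingEnd ℂ) (inner ℂ ((U0 T h.mp ^ (n : ℤ)) F0) (F0)) := by
      have h3 : (starRingEnd ℂ) (inner ℂ ((U0 T h.mp ^ (n : ℤ)) F0) (F0)) = (inner ℂ (F0) ((U0 T h.mp ^ (n : ℤ)) F0)) :=
        inner_conj_symm _ _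
      rw [h3]
      have := inner_zpow (U0 T h.mp) F0 F0 0 n
      rw [zero_sub, zpow_zero] at this
      exact this.symm
    rw [h1, hnat, Complex.conj_ofReal]
    congr 1
    refine intervalIntegral.integral_congr fun t _ => ?_
    have : 2 * π * ((-(-(n : ℤ)) : ℤ) : ℝ) * t = (2 * π * n * t) := by push_cast; ring
    rw [this]

/-- **From the core to an orthonormal basis `g ∘ T^k` with `g` real.** -/
theorem basis_of_core {T : α ≃ᵐ α} {f : α → ℝ} {w : ℝ → ℝ} (h : Core μ T f w) :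
    ∃ (g : α → ℝ) (b : HilbertBasis ℤ ℂ (L0 μ)), MemLp g 2 μ ∧ ∫ x, g x ∂μ = 0 ∧
      (∀ k, b k = (U0 T h.mp ^ k) (b 0)) ∧
      ∀ k, ((b k : L0 μ) : Lp ℂ 2 μ) =ᵐ[μ] fun x => ((g (pw T k x) : ℝ) : ℂ) := by
  set F0 : L0 μ := c0 h.memLp h.mean with hF0
  set ρ : 𝕋 → ℝ := AddCircle.liftIoc (1:ℝ) 0 (sy w) with hρ
  obtain ⟨G, hG, b, hb⟩ := exists_basis (U0 T h.mp) F0 (total_top h) ρ (lift_int _ (sy_int w h.w_int))
    (lift_ae (sy w) (fun r => 0 < r) (sy_pos w h.w_pos)) (corr_top h)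
  -- reality
  have hG2 : MemLp (fun x => (G : Lp ℂ 2 μ) x) 2 μ := Lp.memLp _
  have hG0 : ∫ x, (G : Lp ℂ 2 μ) x ∂μ = 0 := (mem_L0 _).mp G.2
  have hGi : Integrable (fun x => (G : Lp ℂ 2 μ) x) μ := hG2.integrable (by norm_num)
  have hc2 : MemLp (fun x => (starRingEnd ℂ) ((G : Lp ℂ 2 μ) x)) 2 μ := hG2.star
  have hc0 : ∫ x, (starRingEnd ℂ) ((G : Lp ℂ 2 μ) x) ∂μ = 0 := by
    rw [integral_conj, hG0, map_zero]
  have hconj : mk0 _ hc2 hc0 = G := by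
    refine eq_of_inner (fun l : ℤ => (U0 T h.mp ^ l) F0) (total_top h) _ _ ?_
    intro l
    show (inner ℂ (mk0 _ hc2 hc0) ((U0 T h.mp ^ l) F0)) = (inner ℂ (G) ((U0 T h.mp ^ l) F0))
    have e1 : (inner ℂ (mk0 _ hc2 hc0) ((U0 T h.mp ^ l) F0)) =
        (starRingEnd ℂ) (inner ℂ (G) ((U0 T h.mp ^ l) F0)) := by
      rw [inner_pow', inner_pow', ← integral_conj]
      refine integral_congr_ae ?_
      filter_upwards [mk0_ae _ hc2 hc0,
        c0_pw_ae T h.mp h.memLp h.mean l] with x hx hy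
      rw [hF0, hx, hy, map_mul, Complex.conj_ofReal]
    rw [e1, hG, ← integral_conj]
    have e2 : ∫ x, (starRingEnd ℂ) (fourier l x * ((√(ρ x) : ℝ) : ℂ)) ∂hm =
        ∫ t in (0:ℝ)..1, fourier (-l) (t : 𝕋) * ((√(sy w t) : ℝ) : ℂ) := by
      rw [← integral_lift (sy w) (fun x r => fourier (-l) x * ((√r : ℝ) : ℂ))]
      refine integral_congr_ae (Eventually.of_forall fun x => ?_)
      simp only [map_mul, Complex.conj_ofReal, fourier_neg, hρ]
    have e3 : ∫ x, fourier l x * ((√(ρ x) : ℝ) : ℂ) ∂hm =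
        ∫ t in (0:ℝ)..1, fourier l (t : 𝕋) * ((√(sy w t) : ℝ) : ℂ) := by
      rw [← integral_lift (sy w) (fun x r => fourier l x * ((√r : ℝ) : ℂ))]
    rw [e2, e3, ← integral_refl (fun t => fourier l (t : 𝕋) * ((√(sy w t) : ℝ) : ℂ))]
    refine intervalIntegral.integral_congr fun t _ => ?_
    simp only [fourier_refl, sy_refl]
  have hreal : ∀ᵐ x ∂μ, (G : Lp ℂ 2 μ) x = ((((G : Lp ℂ 2 μ) x).re : ℝ) : ℂ) := by
    have h1 := mk0_ae _ hc2 hc0
    rw [hconj] at h1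
    filter_upwards [h1] with x hx
    exact (Complex.conj_eq_iff_real.mp hx.symm).elim fun r hr => by rw [hr, Complex.ofReal_re]
  refine ⟨fun x => ((G : Lp ℂ 2 μ) x).re, b, hG2.re, ?_, ?_, ?_⟩
  · have := integral_re hGi
    rw [hG0] at this
    simpa using this
  · intro k
    have : b 0 = G := by rw [hb 0]; simp
    rw [this, hb k]
  · intro k
    rw [hb k]
    refine (U0_pow_ae T h.mp G k).trans ?_
    exact (mp_pw T h.mp k).quasiMeasurePreserving.ae hreal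

end Pool.Agent.H701R3.BR
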