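import Pool.Agent.H701R3.BR.Basis

open MeasureTheory Set Filter Topology

namespace Pool.Agent.H701R3.BR

open Pool.Agent.H750F
open scoped Real

attribute [-instance] WithCStarModule.instCStarModuleComplex


/-! ### multiplication by a character -/

theorem norm_four (n : ℤ) (x : 𝕋) : ‖(fourier n x : ℂ)‖ = 1 := Circle.norm_coe _

theorem memLp_mulF (n : ℤ) (F : Lp ℂ 2 hm) : MemLp (fun x => fourier n x * F x) 2 hm := by
  refine (Lp.memLp F).of_le ((fourier n).continuous.aestronglyMeasurable.mul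
    (Lp.aestronglyMeasurable F)) (Eventually.of_forall fun x => ?_)
  rw [norm_mul, norm_four, one_mul]

/-- multiplication by the character `e_n` on `L²` of the circle -/
noncomputable def mulF (n : ℤ) : Lp ℂ 2 hm →ₗᵢ[ℂ] Lp ℂ 2 hm where
  toFun F := (memLp_mulF n F).toLp _
  map_add' F G := by
    refine Lp.ext ?_
    filter_upwards [(memLp_mulF n (F + G)).coeFn_toLp, (memLp_mulF n F).coeFn_toLp,
      (memLp_mulF n G).coeFn_toLp, Lp.coeFn_add F G,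
      Lp.coeFn_add ((memLp_mulF n F).toLp _) ((memLp_mulF n G).toLp _)] with x h1 h2 h3 h4 h5
    rw [h1, h5, Pi.add_apply, h2, h3, h4, Pi.add_apply, mul_add]
  map_smul' c F := by
    refine Lp.ext ?_
    filter_upwards [(memLp_mulF n (c • F)).coeFn_toLp, (memLp_mulF n F).coeFn_toLp,
      Lp.coeFn_smul c F, Lp.coeFn_smul c ((memLp_mulF n F).toLp _)] with x h1 h2 h3 h4
    rw [h1, RingHom.id_apply, h4, Pi.smul_apply, h2, h3, Pi.smul_apply, smul_eq_mul, smul_eq_mul]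
    ring
  norm_map' F := by
    show ‖(memLp_mulF n F).toLp _‖ = ‖F‖
    rw [Lp.norm_toLp, Lp.norm_def]
    congr 1
    refine eLpNorm_congr_norm_ae (Eventually.of_forall fun x => ?_)
    rw [norm_mul, norm_four, one_mul]

theorem mulF_ae (n : ℤ) (F : Lp ℂ 2 hm) : mulF n F =ᵐ[hm] fun x => fourier n x * F x :=
  (memLp_mulF n F).coeFn_toLp

theorem mulF_fourierLp (n k : ℤ) :
    mulF n (fourierLp 2 k : Lp ℂ 2 hm) = (fourierLp 2 (k + n) : Lp ℂ 2 hm) := by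
  refine Lp.ext ?_
  filter_upwards [mulF_ae n (fourierLp 2 k : Lp ℂ 2 hm),
    coeFn_fourierLp (T := (1:ℝ)) 2 k, coeFn_fourierLp (T := (1:ℝ)) 2 (k + n)] with x h1 h2 h3
  rw [h1, h2, h3, fourier_add, mul_comm]

section

variable {α : Type} [MeasurableSpace α] {μ : Measure α} [IsProbabilityMeasure μ]
  {T : α ≃ᵐ α} {hT : MeasurePreserving T μ μ}

/-- the spectral isomorphism attached to a basis `U^k g` -/
noncomputable def WW (b : HilbertBasis ℤ ℂ (L0 μ)) : L0 μ ≃ₗᵢ[ℂ] Lp ℂ 2 hm :=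
  b.repr.trans (fourierBasis (T := (1:ℝ))).repr.symm

theorem WW_b (b : HilbertBasis ℤ ℂ (L0 μ)) (k : ℤ) :
    WW b (b k) = (fourierLp 2 k : Lp ℂ 2 hm) := by
  classical
  show (fourierBasis (T := (1:ℝ))).repr.symm (b.repr (b k)) = _
  rw [b.repr_self, ← coe_fourierBasis, HilbertBasis.repr_symm_single]

theorem pow_b (b : HilbertBasis ℤ ℂ (L0 μ)) (hb : ∀ k, b k = (U0 T hT ^ k) (b 0)) (n k : ℤ) :
    (U0 T hT ^ n) (b k) = b (k + n) := by
  rw [hb k, ← mul_ap, ← zpow_add, hb (k + n), add_comm]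

theorem WW_U (b : HilbertBasis ℤ ℂ (L0 μ)) (hb : ∀ k, b k = (U0 T hT ^ k) (b 0)) (n : ℤ)
    (v : L0 μ) : WW b ((U0 T hT ^ n) v) = mulF n (WW b v) := by
  let A : L0 μ →L[ℂ] Lp ℂ 2 hm :=
    ((WW b).toContinuousLinearEquiv : L0 μ →L[ℂ] Lp ℂ 2 hm).comp
      ((U0 T hT ^ n).toContinuousLinearEquiv : L0 μ →L[ℂ] L0 μ)
  let B : L0 μ →L[ℂ] Lp ℂ 2 hm :=
    (mulF n).toContinuousLinearMap.comp ((WW b).toContinuousLinearEquiv : L0 μ →L[ℂ] Lp ℂ 2 hm)
  have hAB : A = B := by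
    refine ContinuousLinearMap.ext_on (s := Set.range b) ?_ ?_
    · rw [Submodule.dense_iff_topologicalClosure_eq_top]
      exact b.dense_span
    · rintro _ ⟨k, rfl⟩
      show WW b ((U0 T hT ^ n) (b k)) = mulF n (WW b (b k))
      rw [pow_b b hb, WW_b, WW_b, mulF_fourierLp]
  exact DFunLike.congr_fun hAB v

theorem intervalIntegrable_of {F : 𝕋 → ℝ} (hF : Integrable F hm) :
    IntervalIntegrable (fun t : ℝ => F (t : 𝕋)) volume 0 1 := by
  rw [intervalIntegrable_iff_integrableOn_Ioc_of_le zero_le_one]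
  have h1 := AddCircle.measurePreserving_mk (1:ℝ) 0
  rw [zero_add] at h1
  rw [hm_eq] at hF
  exact (h1.integrable_comp hF.aestronglyMeasurable).mpr hF

/-- **absolutely continuous spectral measures** -/
theorem ac_part (b : HilbertBasis ℤ ℂ (L0 μ)) (hb : ∀ k, b k = (U0 T hT ^ k) (b 0))
    (f : α → ℂ) (hf : MemLp f 2 μ) (h0 : ∫ x, f x ∂μ = 0) :
    ∃ h : ℝ → ℝ, (∀ t, 0 ≤ h t) ∧ IntervalIntegrable h volume 0 1 ∧
      ∀ n : ℕ, ∫ x, starRingEnd ℂ (f x) * f ((⇑T)^[n] x) ∂μ =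
        ∫ t in (0:ℝ)..1, (h t : ℂ) * Complex.exp (2 * π * Complex.I * (n : ℂ) * (t : ℂ)) := by
  set v : L0 μ := mk0 f hf h0 with hv
  set F : Lp ℂ 2 hm := WW b v with hF
  have hFi : Integrable (fun x => ‖F x‖ ^ 2) hm :=
    (memLp_two_iff_integrable_sq_norm (Lp.aestronglyMeasurable F)).mp (Lp.memLp F)
  refine ⟨fun t => ‖F (t : 𝕋)‖ ^ 2, fun t => by positivity, intervalIntegrable_of hFi, ?_⟩
  intro n
  have h1 : (inner ℂ (v) ((U0 T hT ^ (n : ℤ)) v)) = (inner ℂ (F) (mulF n F)) := by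
    rw [hF, ← WW_U b hb, LinearIsometryEquiv.inner_map_map]
  have h2 : (inner ℂ (v) ((U0 T hT ^ (n : ℤ)) v)) = ∫ x, starRingEnd ℂ (f x) * f ((⇑T)^[n] x) ∂μ := by
    rw [inner_pow']
    refine integral_congr_ae ?_
    filter_upwards [mk0_ae f hf h0, mk0_pw_ae T hT f hf h0 n] with x hx hy
    rw [hv, hy, hx, pw_nat]
  have h3 : (inner ℂ (F) (mulF n F)) = ∫ x, ((‖F x‖ ^ 2 : ℝ) : ℂ) * fourier (n : ℤ) x ∂hm := by
    rw [L2.inner_def]
    refine integral_congr_ae ?_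
    filter_upwards [mulF_ae n F] with x hx
    rw [RCLike.inner_apply, hx, mul_assoc, RCLike.mul_conj, mul_comm]
    push_cast
    rfl
  rw [← h2, h1, h3, integral_hm]
  refine intervalIntegral.integral_congr fun t _ => ?_
  simp only [fourier_coe]
  push_cast
  rfl

theorem sum_Icc_symm {E : Type*} [AddCommMonoid E] (F : ℤ → E) (N : ℕ) :
    ∑ j ∈ Finset.Icc (-(N : ℤ)) N, F j =
      ∑ n ∈ Finset.range (N + 1), (F n + if n = 0 then 0 else F (-(n : ℤ))) := by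
  induction N with
  | zero => simp
  | succ N ih =>
    rw [Finset.sum_range_succ, ← ih]
    have h1 : Finset.Icc (-((N + 1 : ℕ) : ℤ)) ((N + 1 : ℕ) : ℤ) =
        insert (((N + 1 : ℕ) : ℤ)) (insert (-((N + 1 : ℕ) : ℤ)) (Finset.Icc (-(N : ℤ)) N)) := by
      ext j
      simp only [Finset.mem_insert, Finset.mem_Icc]
      push_cast
      omega
    rw [h1, Finset.sum_insert, Finset.sum_insert, if_neg (Nat.succ_ne_zero N), ← add_assoc, add_comm]
    · simp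
    · simp only [Finset.mem_insert, Finset.mem_Icc]
      push_cast
      omega

/-- **finite spectral multiplicity** (multiplicity one) -/
theorem fm_part (b : HilbertBasis ℤ ℂ (L0 μ)) (g : α → ℝ) (hg : MemLp g 2 μ)
    (hgb : ∀ k, ((b k : L0 μ) : Lp ℂ 2 μ) =ᵐ[μ] fun x => ((g (pw T k x) : ℝ) : ℂ)) :
    ∃ k : ℕ, ∃ g : Fin k → α → ℂ, (∀ i, MemLp (g i) 2 μ) ∧
      ∀ f : α → ℂ, MemLp f 2 μ → ∫ x, f x ∂μ = 0 →
        ∀ ε : ℝ, 0 < ε →
          ∃ s : Finset (Fin k × ℕ), ∃ c d : Fin k × ℕ → ℂ,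
            eLpNorm (fun x => f x - ∑ p ∈ s,
                (c p * g p.1 ((⇑T)^[p.2] x) + d p * g p.1 ((⇑T.symm)^[p.2] x))) 2 μ
              < ENNReal.ofReal ε := by
  refine ⟨1, fun _ x => ((g x : ℝ) : ℂ), fun _ => memLp_c hg, ?_⟩
  intro f hf h0 ε hε
  set v : L0 μ := mk0 f hf h0 with hv
  have hs := b.hasSum_repr v
  obtain ⟨s₀, hs₀⟩ := (Metric.tendsto_atTop.mp hs ε hε)
  obtain ⟨N, hN⟩ : ∃ N : ℕ, s₀ ⊆ Finset.Icc (-(N : ℤ)) N := by
    refine ⟨s₀.sup Int.natAbs, fun j hj => ?_⟩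
    have := Finset.le_sup (f := Int.natAbs) hj
    rw [Finset.mem_Icc]
    omega
  have h1 := hs₀ _ hN
  rw [sum_Icc_symm, dist_comm, dist_eq_norm] at h1
  set a : ℤ → ℂ := fun j => b.repr v j with ha
  refine ⟨(Finset.range (N + 1)).map ⟨fun n => ((0 : Fin 1), n), fun x y h => by simpa using h⟩,
    fun p => a p.2, fun p => if p.2 = 0 then 0 else a (-(p.2 : ℤ)), ?_⟩
  simp only [Finset.sum_map, Function.Embedding.coeFn_mk]
  set S : L0 μ := ∑ n ∈ Finset.range (N + 1),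
    ((b.repr v) n • b n + if n = 0 then 0 else (b.repr v) (-(n : ℤ)) • b (-(n : ℤ))) with hS
  have h2 : (((v - S : L0 μ)) : Lp ℂ 2 μ) =ᵐ[μ] fun x => f x - ∑ n ∈ Finset.range (N + 1),
      (a n * ((g ((⇑T)^[n] x) : ℝ) : ℂ) +
        (if n = 0 then 0 else a (-(n : ℤ))) * ((g ((⇑T.symm)^[n] x) : ℝ) : ℂ)) := by
    have hterm : ∀ n : ℕ, ((((b.repr v) n • b n +
        if n = 0 then 0 else (b.repr v) (-(n : ℤ)) • b (-(n : ℤ)) : L0 μ)) : Lp ℂ 2 μ) =ᵐ[μ]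
        fun x => (a n * ((g ((⇑T)^[n] x) : ℝ) : ℂ) +
        (if n = 0 then 0 else a (-(n : ℤ))) * ((g ((⇑T.symm)^[n] x) : ℝ) : ℂ)) := by
      intro n
      rw [Submodule.coe_add, Submodule.coe_smul]
      have e1 : ((((if n = 0 then 0 else (b.repr v) (-(n : ℤ)) • b (-(n : ℤ)) : L0 μ))) : Lp ℂ 2 μ)
          =ᵐ[μ] fun x => (if n = 0 then 0 else a (-(n : ℤ))) * ((g ((⇑T.symm)^[n] x) : ℝ) : ℂ) := by
        split_ifs with hn
        · rw [Submodule.coe_zero]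
          filter_upwards [Lp.coeFn_zero ℂ 2 μ] with x hx
          rw [hx]; simp
        · rw [Submodule.coe_smul]
          filter_upwards [Lp.coeFn_smul ((b.repr v) (-(n : ℤ))) ((b (-(n : ℤ)) : L0 μ) : Lp ℂ 2 μ),
            hgb (-(n : ℤ))] with x hx hy
          rw [hx, Pi.smul_apply, hy, smul_eq_mul, pw_neg_nat]
      filter_upwards [Lp.coeFn_add ((b.repr v) n • ((b n : L0 μ) : Lp ℂ 2 μ))
        ((((if n = 0 then 0 else (b.repr v) (-(n : ℤ)) • b (-(n : ℤ)) : L0 μ))) : Lp ℂ 2 μ),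
        Lp.coeFn_smul ((b.repr v) n) ((b n : L0 μ) : Lp ℂ 2 μ), hgb n, e1] with x h3 h4 h5 h6
      rw [h3, Pi.add_apply, h4, Pi.smul_apply, h5, h6, smul_eq_mul, pw_nat]
    have hsum : ∀ M : ℕ, ((((∑ n ∈ Finset.range M,
        ((b.repr v) n • b n + if n = 0 then 0 else (b.repr v) (-(n : ℤ)) • b (-(n : ℤ))) : L0 μ)))
          : Lp ℂ 2 μ) =ᵐ[μ] fun x => ∑ n ∈ Finset.range M,
      (a n * ((g ((⇑T)^[n] x) : ℝ) : ℂ) +
        (if n = 0 then 0 else a (-(n : ℤ))) * ((g ((⇑T.symm)^[n] x) : ℝ) : ℂ)) := by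
      intro M
      induction M with
      | zero =>
        simp only [Finset.range_zero, Finset.sum_empty]
        rw [Submodule.coe_zero]
        exact Lp.coeFn_zero ℂ 2 μ
      | succ M ih =>
        rw [Finset.sum_range_succ, Submodule.coe_add]
        filter_upwards [Lp.coeFn_add (((∑ n ∈ Finset.range M,
        ((b.repr v) n • b n + if n = 0 then 0 else (b.repr v) (-(n : ℤ)) • b (-(n : ℤ))) : L0 μ))
          : Lp ℂ 2 μ) ((((b.repr v) M • b M +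
        if M = 0 then 0 else (b.repr v) (-(M : ℤ)) • b (-(M : ℤ)) : L0 μ)) : Lp ℂ 2 μ),
          ih, hterm M] with x h3 h4 h5
        rw [h3, Pi.add_apply, h4, h5, Finset.sum_range_succ]
    rw [Submodule.coe_sub]
    filter_upwards [Lp.coeFn_sub (v : Lp ℂ 2 μ) (S : Lp ℂ 2 μ), mk0_ae f hf h0, hsum (N + 1)]
      with x h3 h4 h5
    rw [h3, Pi.sub_apply, hS, h5, hv, h4]
  have h3 : ‖((v - S : L0 μ) : Lp ℂ 2 μ)‖ < ε := h1
  rw [Lp.norm_def] at h3
  have h4 : eLpNorm (((v - S : L0 μ)) : Lp ℂ 2 μ) 2 μ ≠ ⊤ := Lp.eLpNorm_ne_top _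
  rw [← ENNReal.lt_ofReal_iff_toReal_lt h4] at h3
  rw [eLpNorm_congr_ae h2] at h3
  exact h3

end

end Pool.Agent.H701R3.BR
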