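import Pool.Agent.H701R3.BR.Koop

open MeasureTheory Set Filter Topology

namespace Pool.Agent.H701R3.BR

open Pool.Agent.H750F
open scoped Real


/-- What the construction has to deliver: one real mean-zero function whose spectral measure is
`w(t) dt` with `w > 0` a.e., and which is cyclic for the mean-zero functions. -/
structure Core {α : Type} [MeasurableSpace α] (μ : Measure α) (T : α ≃ᵐ α)
    (f : α → ℝ) (w : ℝ → ℝ) : Prop where
  mp : MeasurePreserving T μ μ
  memLp : MemLp f 2 μ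
  mean : ∫ x, f x ∂μ = 0
  w_int : IntervalIntegrable w volume 0 1
  w_pos : ∀ᵐ t ∂(volume.restrict (Set.Ioc (0:ℝ) 1)), 0 < w t
  corr : ∀ n : ℕ, ∫ x, f x * f ((⇑T)^[n] x) ∂μ
    = ∫ t in (0:ℝ)..1, w t * Real.cos (2 * π * n * t)
  total : ∀ g : α → ℝ, MemLp g 2 μ → ∫ x, g x ∂μ = 0 →
    (∀ k : ℤ, ∫ x, f (pw T k x) * g x ∂μ = 0) → g =ᵐ[μ] 0

/-! ### the circle -/

theorem hm_eq : (hm : Measure 𝕋) = volume := by
  show (AddCircle.haarAddCircle : Measure 𝕋) = volume
  rw [AddCircle.volume_eq_smul_haarAddCircle]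
  simp

theorem integral_hm {E : Type*} [NormedAddCommGroup E] [NormedSpace ℝ E] (F : 𝕋 → E) :
    ∫ x, F x ∂hm = ∫ t in (0:ℝ)..1, F (t : 𝕋) := by
  rw [hm_eq, ← AddCircle.intervalIntegral_preimage 1 0 F, zero_add]

theorem mp_rep : MeasurePreserving (fun x : 𝕋 => ((AddCircle.equivIoc (1:ℝ) 0 x : Ioc (0:ℝ) (0+1)) : ℝ))
    hm (volume.restrict (Ioc (0:ℝ) 1)) := by
  have h1 : MeasurePreserving (Subtype.val : Ioc (0:ℝ) (0+1) → ℝ)
      (Measure.comap Subtype.val volume) (volume.restrict (Ioc (0:ℝ) (0+1))) :=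
    measurePreserving_subtype_coe (measurableSet_Ioc)
  have h2 : MeasurePreserving (AddCircle.equivIoc (1:ℝ) 0) volume
      (Measure.comap Subtype.val volume) := AddCircle.measurePreserving_equivIoc (1:ℝ) (a := 0)
  have e : (volume.restrict (Ioc (0:ℝ) 1)) = (volume.restrict (Ioc (0:ℝ) (0+1))) := by
    rw [zero_add]
  rw [hm_eq, e]
  exact h1.comp h2

theorem liftIoc_eq (w : ℝ → ℝ) : AddCircle.liftIoc (1:ℝ) 0 w =
    fun x : 𝕋 => w ((AddCircle.equivIoc (1:ℝ) 0 x : Ioc (0:ℝ) (0+1)) : ℝ) := rfl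

theorem lift_int (w : ℝ → ℝ) (hw : IntervalIntegrable w volume 0 1) :
    Integrable (AddCircle.liftIoc (1:ℝ) 0 w) hm := by
  rw [intervalIntegrable_iff_integrableOn_Ioc_of_le zero_le_one] at hw
  rw [liftIoc_eq]
  exact (mp_rep.integrable_comp hw.aestronglyMeasurable).mpr hw

theorem lift_ae (w : ℝ → ℝ) (P : ℝ → Prop)
    (hw : ∀ᵐ t ∂(volume.restrict (Set.Ioc (0:ℝ) 1)), P (w t)) :
    ∀ᵐ x ∂hm, P (AddCircle.liftIoc (1:ℝ) 0 w x) := by
  rw [liftIoc_eq]
  exact mp_rep.quasiMeasurePreserving.ae (p := fun t => P (w t)) hw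

theorem integral_lift (w : ℝ → ℝ) (F : 𝕋 → ℝ → ℂ) :
    ∫ x, F x (AddCircle.liftIoc (1:ℝ) 0 w x) ∂hm = ∫ t in (0:ℝ)..1, F (t : 𝕋) (w t) := by
  rw [integral_hm]
  refine intervalIntegral.integral_congr_ae (Eventually.of_forall fun t ht => ?_)
  rw [uIoc_of_le zero_le_one] at ht
  rw [AddCircle.liftIoc_coe_apply (by rwa [zero_add])]

theorem mp_refl : MeasurePreserving (fun t : ℝ => 1 - t) (volume.restrict (Ioc (0:ℝ) 1))
    (volume.restrict (Ioc (0:ℝ) 1)) := by
  have h1 : MeasurePreserving (fun t : ℝ => 1 - t) volume volume :=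
    Measure.measurePreserving_sub_left volume 1
  have h2 := h1.restrict_preimage (measurableSet_Ioc (a := (0:ℝ)) (b := 1))
  have h3 : (fun t : ℝ => 1 - t) ⁻¹' (Ioc (0:ℝ) 1) = Ico 0 1 := by
    ext t
    simp only [mem_preimage, mem_Ioc, mem_Ico]
    constructor
    · rintro ⟨a, b⟩; constructor <;> linarith
    · rintro ⟨a, b⟩; constructor <;> linarith
  rw [h3, Measure.restrict_congr_set Ico_ae_eq_Ioc] at h2
  exact h2

/-- symmetrised density -/
noncomputable def sy (w : ℝ → ℝ) (t : ℝ) : ℝ := (w t + w (1 - t)) / 2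

theorem sy_refl (w : ℝ → ℝ) (t : ℝ) : sy w (1 - t) = sy w t := by
  unfold sy
  rw [sub_sub_cancel, add_comm]

theorem refl_int {E : Type*} [NormedAddCommGroup E] (w : ℝ → E)
    (hw : IntervalIntegrable w volume 0 1) :
    IntervalIntegrable (fun t => w (1 - t)) volume 0 1 := by
  rw [intervalIntegrable_iff_integrableOn_Ioc_of_le zero_le_one] at hw ⊢
  exact (mp_refl.integrable_comp hw.aestronglyMeasurable).mpr hw

theorem sy_int (w : ℝ → ℝ) (hw : IntervalIntegrable w volume 0 1) :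
    IntervalIntegrable (sy w) volume 0 1 := by
  unfold sy
  exact (hw.add (refl_int w hw)).div_const 2

theorem sy_pos (w : ℝ → ℝ) (hw : ∀ᵐ t ∂(volume.restrict (Set.Ioc (0:ℝ) 1)), 0 < w t) :
    ∀ᵐ t ∂(volume.restrict (Set.Ioc (0:ℝ) 1)), 0 < sy w t := by
  have h1 := mp_refl.quasiMeasurePreserving.ae hw
  filter_upwards [hw, h1] with t a b
  unfold sy
  linarith

theorem integral_refl {E : Type*} [NormedAddCommGroup E] [NormedSpace ℝ E] (F : ℝ → E) :
    ∫ t in (0:ℝ)..1, F (1 - t) = ∫ t in (0:ℝ)..1, F t := by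
  simp

theorem fourier_coe (k : ℤ) (t : ℝ) :
    fourier k (t : 𝕋) = Complex.exp (2 * π * Complex.I * k * t) := by
  rw [fourier_coe_apply]
  congr 1
  push_cast
  ring

theorem fourier_refl (k : ℤ) (t : ℝ) :
    fourier k ((1 - t : ℝ) : 𝕋) = fourier (-k) (t : 𝕋) := by
  rw [fourier_coe, fourier_coe]
  have : (2 * π * Complex.I * k * ((1 - t : ℝ) : ℂ) : ℂ) =
      2 * π * Complex.I * ((-k : ℤ) : ℂ) * t + k * (2 * π * Complex.I) := by
    push_cast; ring
  rw [this, Complex.exp_add, Complex.exp_int_mul_two_pi_mul_I, mul_one]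

theorem fourier_cos (k : ℤ) (t : ℝ) :
    (fourier k (t : 𝕋) + fourier (-k) (t : 𝕋)) / 2 = ((Real.cos (2 * π * k * t) : ℝ) : ℂ) := by
  rw [fourier_coe, fourier_coe, Complex.ofReal_cos, Complex.cos]
  congr 2
  · congr 1; push_cast; ring
  · congr 1; push_cast; ring

theorem integral_sy (w : ℝ → ℝ) (hw : IntervalIntegrable w volume 0 1) (k : ℤ) :
    ∫ t in (0:ℝ)..1, fourier k (t : 𝕋) * ((sy w t : ℝ) : ℂ) =
      ((∫ t in (0:ℝ)..1, w t * Real.cos (2 * π * k * t) : ℝ) : ℂ) := by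
  have hc : Continuous fun t : ℝ => (fourier k (t : 𝕋) : ℂ) :=
    (fourier k).continuous.comp (AddCircle.continuous_mk' 1)
  have hc' : Continuous fun t : ℝ => (fourier (-k) (t : 𝕋) : ℂ) :=
    (fourier (-k)).continuous.comp (AddCircle.continuous_mk' 1)
  have hwc : IntervalIntegrable (fun t => ((w t : ℝ) : ℂ)) volume 0 1 := by
    rw [intervalIntegrable_iff_integrableOn_Ioc_of_le zero_le_one] at hw ⊢
    exact hw.ofReal
  have i1 : IntervalIntegrable (fun t => fourier k (t : 𝕋) * ((w t : ℝ) : ℂ)) volume 0 1 :=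
    hwc.continuousOn_mul hc.continuousOn
  have i3 : IntervalIntegrable (fun t => fourier (-k) (t : 𝕋) * ((w t : ℝ) : ℂ)) volume 0 1 :=
    hwc.continuousOn_mul hc'.continuousOn
  have i2 : IntervalIntegrable (fun t => fourier k (t : 𝕋) * ((w (1 - t) : ℝ) : ℂ)) volume 0 1 :=
    (refl_int _ hwc).continuousOn_mul hc.continuousOn
  have e1 : ∫ t in (0:ℝ)..1, fourier k (t : 𝕋) * ((sy w t : ℝ) : ℂ) =
      ((∫ t in (0:ℝ)..1, fourier k (t : 𝕋) * ((w t : ℝ) : ℂ)) +
        ∫ t in (0:ℝ)..1, fourier k (t : 𝕋) * ((w (1 - t) : ℝ) : ℂ)) / 2 := by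
    rw [← intervalIntegral.integral_add i1 i2, ← intervalIntegral.integral_div]
    refine intervalIntegral.integral_congr fun t _ => ?_
    simp only [sy]
    push_cast
    ring
  have e2 : ∫ t in (0:ℝ)..1, fourier k (t : 𝕋) * ((w (1 - t) : ℝ) : ℂ) =
      ∫ t in (0:ℝ)..1, fourier (-k) (t : 𝕋) * ((w t : ℝ) : ℂ) := by
    rw [← integral_refl (fun t => fourier (-k) (t : 𝕋) * ((w t : ℝ) : ℂ))]
    refine intervalIntegral.integral_congr fun t _ => ?_
    simp only [fourier_refl, neg_neg]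
  rw [e1, e2, ← intervalIntegral.integral_add i1 i3, ← intervalIntegral.integral_div,
    ← intervalIntegral.integral_ofReal]
  refine intervalIntegral.integral_congr fun t _ => ?_
  simp only [Complex.ofReal_mul]
  rw [← fourier_cos]
  ring

end Pool.Agent.H701R3.BR
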