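import Pool.Agent.H701R3.BR.Circle

open MeasureTheory Set Filter Topology

namespace Pool.Agent.H701R3.BR

open Pool.Agent.H750F
open scoped Real

attribute [-instance] WithCStarModule.instCStarModuleComplex


variable {α : Type} [MeasurableSpace α] {μ : Measure α} [IsProbabilityMeasure μ]
  {T : α ≃ᵐ α} {hT : MeasurePreserving T μ μ}

theorem corr_b (b : HilbertBasis ℤ ℂ (L0 μ)) (hb : ∀ k, b k = (U0 T hT ^ k) (b 0)) (m n : ℤ) :
    (inner ℂ ((U0 T hT ^ m) (b 0)) ((U0 T hT ^ n) (b 0))) = if m = n then 1 else 0 := by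
  rw [← hb, ← hb]
  exact orthonormal_iff_ite.mp b.orthonormal m n

/-- a vector with a period vanishes -/
theorem periodic_zero (b : HilbertBasis ℤ ℂ (L0 μ)) (hb : ∀ k, b k = (U0 T hT ^ k) (b 0))
    (k : ℕ) (hk : 0 < k) (v : L0 μ) (hv : (U0 T hT ^ (k : ℤ)) v = v) : v = 0 := by
  have hw : Tendsto (fun n : ℕ => (inner ℂ ((U0 T hT ^ (n : ℤ)) (b 0)) (b 0))) atTop (𝓝 0) := by
    refine tendsto_const_nhds.congr' ?_
    filter_upwards [eventually_ge_atTop 1] with n hn
    have := corr_b b hb n 0
    rw [if_neg (by omega)] at this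
    simpa using this.symm
  have hv' : ∀ j : ℕ, (U0 T hT ^ ((k * j : ℕ) : ℤ)) v = v := by
    intro j
    induction j with
    | zero => simp
    | succ j ih =>
      have e : ((k * (j + 1) : ℕ) : ℤ) = (k * j : ℕ) + k := by push_cast; ring
      rw [e, zpow_add, mul_ap, hv, ih]
  have hz : ∀ i : ℤ, (inner ℂ (b i) (v)) = 0 := by
    intro i
    have h1 := weak_of (U0 T hT) (b 0) hw ((U0 T hT ^ (-i)) v)
    have h2 : Tendsto (fun j : ℕ => k * j) atTop atTop := tendsto_id.const_mul_atTop' hk
    have h3 := h1.comp h2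
    have h4 : ∀ j : ℕ, (inner ℂ ((U0 T hT ^ ((k * j : ℕ) : ℤ)) (b 0)) ((U0 T hT ^ (-i)) v)) = (inner ℂ (b i) (v)) := by
      intro j
      have e1 : (U0 T hT ^ (-i)) v = (U0 T hT ^ (-i + (k * j : ℕ))) v := by
        rw [zpow_add, mul_ap, hv']
      rw [e1, inner_zpow]
      have e2 : ((k * j : ℕ) : ℤ) - (-i + (k * j : ℕ)) = i := by ring
      rw [e2, ← hb]
    have h5 : (fun j : ℕ => (inner ℂ ((U0 T hT ^ ((k * j : ℕ) : ℤ)) (b 0)) ((U0 T hT ^ (-i)) v))) =
        fun _ => (inner ℂ (b i) (v)) := funext h4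
    change Tendsto (fun j : ℕ => (inner ℂ ((U0 T hT ^ ((k * j : ℕ) : ℤ)) (b 0)) ((U0 T hT ^ (-i)) v)))
      atTop (𝓝 0) at h3
    rw [h5] at h3
    exact (tendsto_nhds_unique h3 tendsto_const_nhds).symm
  have h6 : b.repr v = 0 := by
    ext i
    rw [b.repr_apply_apply, hz]
    rfl
  exact b.repr.map_eq_zero_iff.mp h6

/-- mean-zero indicator -/
theorem memLp_ind {s : Set α} (hs : MeasurableSet s) :
    MemLp (fun x => s.indicator (fun _ => (1:ℝ)) x - μ.real s) 2 μ :=
  ((memLp_const (1:ℝ)).indicator hs).sub (memLp_const _)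

theorem mean_ind {s : Set α} (hs : MeasurableSet s) :
    ∫ x, (s.indicator (fun _ => (1:ℝ)) x - μ.real s) ∂μ = 0 := by
  rw [integral_sub ((integrable_const (1:ℝ)).indicator hs) (integrable_const _),
    integral_indicator_const _ hs]
  simp

/-- an almost invariant set has measure zero or one -/
theorem ind_zero {s : Set α} (hs : MeasurableSet s) (h : c0 (memLp_ind hs) (mean_ind hs) = (0 : L0 μ)) :
    ∀ᵐ x ∂μ, s.indicator (fun _ => (1:ℝ)) x = μ.real s := by
  have h1 := c0_ae (memLp_ind hs) (mean_ind (μ := μ) hs)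
  rw [h, Submodule.coe_zero] at h1
  filter_upwards [h1, Lp.coeFn_zero ℂ 2 μ] with x hx hy
  rw [hy, Pi.zero_apply] at hx
  have := Complex.ofReal_eq_zero.mp hx.symm
  linarith

theorem inv_ind (k : ℤ) {s : Set α} (hs : MeasurableSet s) (hsT : ∀ x, pw T k x ∈ s ↔ x ∈ s) :
    (U0 T hT ^ k) (c0 (memLp_ind hs) (mean_ind hs)) = c0 (memLp_ind (μ := μ) hs) (mean_ind hs) := by
  apply Subtype.ext
  refine Lp.ext ?_
  filter_upwards [U0_pow_ae T hT (c0 (memLp_ind hs) (mean_ind hs)) k,
    c0_pw_ae T hT (memLp_ind hs) (mean_ind hs) k,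
    c0_ae (memLp_ind hs) (mean_ind (μ := μ) hs)] with x h1 h2 h3
  rw [h1, h2, h3]
  congr 2
  by_cases hx : x ∈ s
  · rw [indicator_of_mem hx, indicator_of_mem ((hsT x).mpr hx)]
  · rw [indicator_of_notMem hx, indicator_of_notMem (fun h => hx ((hsT x).mp h))]

/-- **ergodicity** -/
theorem ergodic_of_basis (b : HilbertBasis ℤ ℂ (L0 μ)) (hb : ∀ k, b k = (U0 T hT ^ k) (b 0)) :
    Ergodic (⇑T) μ := by
  refine ⟨hT, ⟨?_⟩⟩
  intro s hs hsT
  have h1 : c0 (memLp_ind hs) (mean_ind hs) = (0 : L0 μ) := by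
    refine periodic_zero b hb 1 one_pos _ ?_
    refine inv_ind _ hs ?_
    intro x
    rw [Nat.cast_one, pw_one]
    exact Set.ext_iff.mp hsT x
  have h2 := ind_zero hs h1
  rw [Filter.eventuallyConst_set]
  by_cases h3 : μ.real s = 1
  · left
    filter_upwards [h2] with x hx
    by_contra hxs
    rw [indicator_of_notMem hxs, h3] at hx
    exact zero_ne_one hx
  · right
    filter_upwards [h2] with x hx hxs
    rw [indicator_of_mem hxs] at hx
    exact h3 hx.symm

/-- **no atoms** -/
theorem noAtoms_of_basis [MeasurableSingletonClass α] (b : HilbertBasis ℤ ℂ (L0 μ))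
    (hb : ∀ k, b k = (U0 T hT ^ k) (b 0)) : NullSingletonClass μ := by
  refine ⟨fun x => ?_⟩
  by_contra hx
  -- all the points `T^n x` have the same measure
  have hpt : ∀ n : ℕ, μ {(⇑T)^[n] x} = μ {x} := by
    intro n
    have h1 := (hT.iterate n).measure_preimage (s := {(⇑T)^[n] x})
      (measurableSet_singleton _).nullMeasurableSet
    rw [← h1]
    congr 1
    ext y
    simp only [mem_preimage, mem_singleton_iff]
    exact ⟨fun h => T.injective.iterate n h, fun h => by rw [h]⟩
  -- so the orbit is periodic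
  have hper : ∃ k : ℕ, 0 < k ∧ (⇑T)^[k] x = x := by
    by_contra hno
    push Not at hno
    have hinj : Function.Injective fun n : ℕ => (⇑T)^[n] x := by
      intro m n hmn
      by_contra hne
      rcases lt_or_gt_of_ne hne with h | h
      · refine hno (n - m) (by omega) ?_
        have : (⇑T)^[n] x = (⇑T)^[m] ((⇑T)^[n - m] x) := by
          rw [← Function.iterate_add_apply]; congr 1; omega
        simp only at hmn
        rw [this] at hmn
        exact (T.injective.iterate m hmn).symm
      · refine hno (m - n) (by omega) ?_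
        have : (⇑T)^[m] x = (⇑T)^[n] ((⇑T)^[m - n] x) := by
          rw [← Function.iterate_add_apply]; congr 1; omega
        simp only at hmn
        rw [this] at hmn
        exact T.injective.iterate n hmn
    have hdisj : Pairwise (Function.onFun Disjoint fun n : ℕ => ({(⇑T)^[n] x} : Set α)) := by
      intro m n hmn
      simp only [Function.onFun, disjoint_singleton, ne_eq]
      exact fun h => hmn (hinj h)
    have h1 := measure_iUnion (μ := μ) hdisj fun n => measurableSet_singleton ((⇑T)^[n] x)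
    simp only [hpt] at h1
    rw [ENNReal.tsum_const_eq_top_of_ne_zero hx] at h1
    exact measure_ne_top μ _ h1
  obtain ⟨k, hk, hkx⟩ := hper
  have h1 : c0 (memLp_ind (measurableSet_singleton x)) (mean_ind (measurableSet_singleton x))
      = (0 : L0 μ) := by
    refine periodic_zero b hb k hk _ ?_
    refine inv_ind _ (measurableSet_singleton x) ?_
    intro y
    rw [pw_nat]
    simp only [mem_singleton_iff]
    constructor
    · intro h
      exact T.injective.iterate k (h.trans hkx.symm)
    · intro h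
      rw [h, hkx]
  have h2 := ind_zero (measurableSet_singleton x) h1
  -- the point `x` itself satisfies the a.e. statement
  have h3 : ({x} : Set α).indicator (fun _ => (1:ℝ)) x = μ.real {x} := by
    by_contra hne
    refine hx (measure_mono_null (t := {y | ¬ ({x} : Set α).indicator (fun _ => (1:ℝ)) y
      = μ.real {x}}) ?_ h2)
    rintro y rfl
    exact hne
  rw [indicator_of_mem (mem_singleton x)] at h3
  have h4 : ∀ᵐ y ∂μ, y = x := by
    filter_upwards [h2] with y hy
    by_contra hyx
    rw [indicator_of_notMem (by simpa using hyx), ← h3] at hy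
    exact zero_ne_one hy
  -- then there is no nonzero mean-zero function
  have h5 : b 0 = 0 := by
    apply Subtype.ext
    refine Lp.ext ?_
    have hmean : ∫ y, ((b 0 : L0 μ) : Lp ℂ 2 μ) y ∂μ = 0 := (mem_L0 _).mp (b 0).2
    have h6 : ∫ y, ((b 0 : L0 μ) : Lp ℂ 2 μ) y ∂μ = ((b 0 : L0 μ) : Lp ℂ 2 μ) x := by
      rw [integral_congr_ae (g := fun _ => ((b 0 : L0 μ) : Lp ℂ 2 μ) x)]
      · simp
      · filter_upwards [h4] with y hy
        rw [hy]
    rw [hmean] at h6
    rw [Submodule.coe_zero]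
    filter_upwards [h4, Lp.coeFn_zero ℂ 2 μ] with y hy hz
    rw [hz, hy, ← h6]
    rfl
  have h7 := b.orthonormal.1 0
  rw [h5, norm_zero] at h7
  exact zero_ne_one h7

end Pool.Agent.H701R3.BR
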