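import Pool.Agent.H701R3.BR.Erg

open MeasureTheory Set Filter Topology

namespace Pool.Agent.H701R3.BR

open Pool.Agent.H750F
open scoped Real

attribute [-instance] WithCStarModule.instCStarModuleComplex


/-- The output of the construction. -/
def CoreExists : Prop := ∃ (α : Type) (_ : MeasurableSpace α), StandardBorelSpace α ∧
  ∃ (μ : Measure α) (T : α ≃ᵐ α), IsProbabilityMeasure μ ∧ ∃ (f : α → ℝ) (w : ℝ → ℝ), Core μ T f w

section

variable {α : Type} [MeasurableSpace α] {μ : Measure α} [IsProbabilityMeasure μ]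
  {T : α ≃ᵐ α} {hT : MeasurePreserving T μ μ}

/-- integer powers as measurable equivalences -/
def mpw (T : α ≃ᵐ α) (n : ℕ) : α ≃ᵐ α where
  toEquiv := ((T.toEquiv : Equiv.Perm α) ^ n)
  measurable_toFun := by
    have h : ⇑((T.toEquiv : Equiv.Perm α) ^ n) = (⇑T)^[n] := by
      rw [← Equiv.Perm.iterate_eq_pow]; rfl
    rw [h]
    exact T.measurable.iterate n
  measurable_invFun := by
    have h : ⇑((T.toEquiv : Equiv.Perm α) ^ n).symm = (⇑T.symm)^[n] := by
      have : ((T.toEquiv : Equiv.Perm α) ^ n).symm = (T.toEquiv⁻¹ : Equiv.Perm α) ^ n := by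
        rw [inv_pow]; rfl
      rw [this, ← Equiv.Perm.iterate_eq_pow]; rfl
    rw [h]
    exact T.symm.measurable.iterate n

theorem mpw_apply (T : α ≃ᵐ α) (n : ℕ) (x : α) : mpw T n x = pw T n x := by
  show ((T.toEquiv : Equiv.Perm α) ^ n) x = ((T.toEquiv : Equiv.Perm α) ^ (n : ℤ)) x
  rw [zpow_natCast]

omit [IsProbabilityMeasure μ] in
theorem mp_mpw (hT : MeasurePreserving T μ μ) (n : ℕ) : MeasurePreserving (mpw T n) μ μ := by
  have h : ⇑(mpw T n) = pw T n := funext (mpw_apply T n)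
  rw [h]
  exact mp_pw T hT n

/-! ### orthonormality and totality on the level of functions -/

theorem orth_part (b : HilbertBasis ℤ ℂ (L0 μ)) (g : α → ℝ)
    (hgb : ∀ k, ((b k : L0 μ) : Lp ℂ 2 μ) =ᵐ[μ] fun x => ((g (pw T k x) : ℝ) : ℂ)) (m n : ℤ) :
    ∫ x, g (pw T m x) * g (pw T n x) ∂μ = if m = n then 1 else 0 := by
  have h1 := orthonormal_iff_ite.mp b.orthonormal m n
  rw [Submodule.coe_inner, L2.inner_def] at h1
  have h2 : ∫ x, (inner ℂ (((b m : L0 μ) : Lp ℂ 2 μ) x) (((b n : L0 μ) : Lp ℂ 2 μ) x)) ∂μ =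
      ((∫ x, g (pw T m x) * g (pw T n x) ∂μ : ℝ) : ℂ) := by
    rw [← integral_complex_ofReal]
    refine integral_congr_ae ?_
    filter_upwards [hgb m, hgb n] with x hx hy
    rw [RCLike.inner_apply, hx, hy, Complex.conj_ofReal]
    push_cast
    ring
  rw [h2] at h1
  split_ifs with h
  · rw [if_pos h] at h1
    exact_mod_cast h1
  · rw [if_neg h] at h1
    exact_mod_cast h1

theorem total_part (b : HilbertBasis ℤ ℂ (L0 μ)) (g : α → ℝ)
    (hgb : ∀ k, ((b k : L0 μ) : Lp ℂ 2 μ) =ᵐ[μ] fun x => ((g (pw T k x) : ℝ) : ℂ))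
    (u : α → ℂ) (hu : MemLp u 2 μ) (h0 : ∫ x, u x ∂μ = 0)
    (h : ∀ n : ℤ, ∫ x, ((g (pw T n x) : ℝ) : ℂ) * u x ∂μ = 0) : u =ᵐ[μ] 0 := by
  have h1 : ∀ k, (inner ℂ (b k) (mk0 u hu h0)) = 0 := by
    intro k
    rw [Submodule.coe_inner, L2.inner_def, ← h k]
    refine integral_congr_ae ?_
    filter_upwards [hgb k, mk0_ae u hu h0] with x hx hy
    rw [RCLike.inner_apply, hx, hy, Complex.conj_ofReal, mul_comm]
  have h2 : b.repr (mk0 u hu h0) = 0 := by
    ext i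
    rw [b.repr_apply_apply, h1]
    rfl
  have h3 := b.repr.map_eq_zero_iff.mp h2
  have h4 := mk0_ae u hu h0
  rw [h3, Submodule.coe_zero] at h4
  exact h4.symm.trans (Lp.coeFn_zero ℂ 2 μ)

/-! ### spectral isomorphism -/

theorem spectral_part (b : HilbertBasis ℤ ℂ (L0 μ)) (hb : ∀ k, b k = (U0 T hT ^ k) (b 0)) :
    ∃ W : Lp ℂ 2 (AddCircle.haarAddCircle : Measure (AddCircle (1:ℝ))) →ₗᵢ[ℂ] Lp ℂ 2 μ,
      (∀ f : Lp ℂ 2 μ, f ∈ Set.range W ↔ ∫ x, f x ∂μ = 0) ∧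
      ∀ F G : Lp ℂ 2 (AddCircle.haarAddCircle : Measure (AddCircle (1:ℝ))),
        (∀ᵐ t ∂(AddCircle.haarAddCircle : Measure (AddCircle (1:ℝ))), G t = fourier 1 t * F t) →
        ∀ᵐ x ∂μ, W G x = W F (T x) := by
  refine ⟨(L0 μ).subtypeₗᵢ.comp (WW b).symm.toLinearIsometry, ?_, ?_⟩
  · intro f
    constructor
    · rintro ⟨F, rfl⟩
      exact (mem_L0 _).mp ((WW b).symm F).2
    · intro hf
      refine ⟨WW b ⟨f, (mem_L0 f).mpr hf⟩, ?_⟩
      show (((WW b).symm (WW b ⟨f, (mem_L0 f).mpr hf⟩) : L0 μ) : Lp ℂ 2 μ) = f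
      rw [LinearIsometryEquiv.symm_apply_apply]
  · intro F G hFG
    have h1 : G = mulF 1 F := by
      refine Lp.ext ?_
      filter_upwards [hFG, mulF_ae 1 F] with t h5 h6
      rw [h5, h6]
    have h2 : (WW b).symm (mulF 1 F) = (U0 T hT) ((WW b).symm F) := by
      rw [LinearIsometryEquiv.symm_apply_eq]
      have h3 := WW_U b hb 1 ((WW b).symm F)
      rw [zpow_one, LinearIsometryEquiv.apply_symm_apply] at h3
      exact h3.symm
    show ∀ᵐ x ∂μ, (((WW b).symm G : L0 μ) : Lp ℂ 2 μ) x = (((WW b).symm F : L0 μ) : Lp ℂ 2 μ) (T x)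
    rw [h1, h2, U0_coe]
    exact KU_ae T hT _

/-! ### `n` copies of the bilateral shift -/

/-- the family of vectors -/
noncomputable def fam (b : HilbertBasis ℤ ℂ (L0 μ)) (n : ℕ) : Option (Fin n × ℤ) → Lp ℂ 2 μ
  | none => one2 μ
  | some p => ((b ((n : ℤ) * p.2 + (p.1 : ℕ)) : L0 μ) : Lp ℂ 2 μ)

theorem norm_one2 : (inner ℂ (one2 μ) (one2 μ)) = 1 := by
  unfold one2
  rw [L2.inner_indicatorConstLp_one, Measure.restrict_univ]
  rw [integral_congr_ae (g := fun _ => (1:ℂ)) (by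
    have := one2_ae (μ := μ)
    unfold one2 at this
    exact this)]
  simp

theorem inner_one2 (v : L0 μ) : (inner ℂ (one2 μ) ((v : Lp ℂ 2 μ))) = 0 := by
  have := v.2
  unfold L0 at this
  rw [Submodule.mem_orthogonal_singleton_iff_inner_right] at this
  exact this

theorem fam_orth (b : HilbertBasis ℤ ℂ (L0 μ)) (n : ℕ) : Orthonormal ℂ (fam b n) := by
  rw [orthonormal_iff_ite]
  rintro (_ | ⟨i, j⟩) (_ | ⟨i', j'⟩)
  · simp only [fam, if_true]
    exact norm_one2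
  · simp only [fam]
    rw [if_neg (by simp)]
    exact inner_one2 _
  · simp only [fam]
    rw [if_neg (by simp), ← inner_conj_symm, inner_one2, map_zero]
  · simp only [fam]
    rw [← Submodule.coe_inner, orthonormal_iff_ite.mp b.orthonormal]
    have hi := i.2
    have hi' := i'.2
    have key : ((n : ℤ) * j + (i : ℕ) = (n : ℤ) * j' + (i' : ℕ)) ↔ (i = i' ∧ j = j') := by
      constructor
      · intro h
        have hn : (0 : ℤ) < n := by omega
        have h1 : j = j' := by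
          have e1 : ((n : ℤ) * j + (i : ℕ)) / n = j := by
            rw [Int.mul_add_ediv_left _ _ hn.ne', Int.ediv_eq_zero_of_lt (by positivity) (by exact_mod_cast hi)]
            ring
          have e2 : ((n : ℤ) * j' + (i' : ℕ)) / n = j' := by
            rw [Int.mul_add_ediv_left _ _ hn.ne', Int.ediv_eq_zero_of_lt (by positivity) (by exact_mod_cast hi')]
            ring
          rw [← e1, h, e2]
        subst h1
        refine ⟨Fin.ext ?_, rfl⟩
        have : ((i : ℕ) : ℤ) = (i' : ℕ) := by linarith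
        exact_mod_cast this
      · rintro ⟨rfl, rfl⟩; rfl
    by_cases h : (i = i' ∧ j = j')
    · rw [if_pos (key.mpr h), if_pos (by obtain ⟨rfl, rfl⟩ := h; rfl)]
    · rw [if_neg (fun h' => h (key.mp h')), if_neg (by
        intro h'
        simp only [Option.some.injEq, Prod.mk.injEq] at h'
        exact h h')]

theorem fam_total (b : HilbertBasis ℤ ℂ (L0 μ)) (n : ℕ) (hn : 0 < n) :
    (Submodule.span ℂ (range (fam b n)))ᗮ = ⊥ := by
  rw [Submodule.eq_bot_iff]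
  intro u hu
  have h1 : ∀ p, (inner ℂ (fam b n p) (u)) = 0 := fun p =>
    (Submodule.mem_orthogonal _ _).mp hu _ (Submodule.subset_span ⟨p, rfl⟩)
  have h2 : u ∈ L0 μ := by
    unfold L0
    rw [Submodule.mem_orthogonal_singleton_iff_inner_right]
    exact h1 none
  have h3 : ∀ k, (inner ℂ (b k) ((⟨u, h2⟩ : L0 μ))) = 0 := by
    intro k
    rw [Submodule.coe_inner]
    have hn' : (0 : ℤ) < n := by exact_mod_cast hn
    have hm := Int.emod_nonneg k hn'.ne'
    have hm' := Int.emod_lt_of_pos k hn'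
    have h4 := h1 (some (⟨(k % n).toNat, by omega⟩, k / n))
    simp only [fam] at h4
    have e : (n : ℤ) * (k / n) + (((k % n).toNat : ℕ) : ℤ) = k := by
      rw [Int.toNat_of_nonneg hm]
      exact Int.mul_ediv_add_emod k n
    rw [e] at h4
    exact h4
  have h4 : b.repr (⟨u, h2⟩ : L0 μ) = 0 := by
    ext i
    rw [b.repr_apply_apply, h3]
    rfl
  have h5 := b.repr.map_eq_zero_iff.mp h4
  have h6 := congrArg (fun v : L0 μ => (v : Lp ℂ 2 μ)) h5
  exact h6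

theorem shift_part (b : HilbertBasis ℤ ℂ (L0 μ)) (hb : ∀ k, b k = (U0 T hT ^ k) (b 0))
    (n : ℕ) (hn : 0 < n) (hS : MeasurePreserving (mpw T n) μ μ)
    (H : Type*) [NormedAddCommGroup H] [InnerProductSpace ℂ H] [CompleteSpace H]
    (β : HilbertBasis (Option (Fin n × ℤ)) ℂ H) (V : H ≃ₗᵢ[ℂ] H)
    (hV0 : V (β none) = β none) (hV : ∀ i j, V (β (some (i, j))) = β (some (i, j + 1))) :
    ∃ W : Lp ℂ 2 μ ≃ₗᵢ[ℂ] H, ∀ f : Lp ℂ 2 μ,
      W (Lp.compMeasurePreserving (mpw T n) hS f) = V (W f) := by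
  classical
  let e : HilbertBasis (Option (Fin n × ℤ)) ℂ (Lp ℂ 2 μ) :=
    HilbertBasis.mkOfOrthogonalEqBot (fam_orth b n) (fam_total b n hn)
  have he : ∀ p, e p = fam b n p := fun p => by
    show (HilbertBasis.mkOfOrthogonalEqBot (fam_orth b n) (fam_total b n hn)) p = _
    rw [HilbertBasis.coe_mkOfOrthogonalEqBot]
  let W : Lp ℂ 2 μ ≃ₗᵢ[ℂ] H := e.repr.trans β.repr.symm
  have hW : ∀ p, W (e p) = β p := by
    intro p
    show β.repr.symm (e.repr (e p)) = β p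
    rw [e.repr_self, HilbertBasis.repr_symm_single]
  have hK : ∀ f : Lp ℂ 2 μ, Lp.compMeasurePreserving (mpw T n) hS f = (KU T hT ^ (n : ℤ)) f := by
    intro f
    refine Lp.ext ?_
    filter_upwards [Lp.coeFn_compMeasurePreserving f hS, KU_pow_ae T hT f n] with x h1 h2
    rw [h1, h2, Function.comp, mpw_apply]
  refine ⟨W, ?_⟩
  let A : Lp ℂ 2 μ →L[ℂ] H := (W.toContinuousLinearEquiv : Lp ℂ 2 μ →L[ℂ] H).comp
    ((KU T hT ^ (n : ℤ)).toContinuousLinearEquiv : Lp ℂ 2 μ →L[ℂ] Lp ℂ 2 μ)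
  let B : Lp ℂ 2 μ →L[ℂ] H := (V.toContinuousLinearEquiv : H →L[ℂ] H).comp
    (W.toContinuousLinearEquiv : Lp ℂ 2 μ →L[ℂ] H)
  have hAB : A = B := by
    refine ContinuousLinearMap.ext_on (s := Set.range e) ?_ ?_
    · rw [Submodule.dense_iff_topologicalClosure_eq_top]
      exact e.dense_span
    · rintro _ ⟨p, rfl⟩
      show W ((KU T hT ^ (n : ℤ)) (e p)) = V (W (e p))
      have hstep : (KU T hT ^ (n : ℤ)) (e p) = e (p.map fun q => (q.1, q.2 + 1)) := by
        rw [he, he]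
        rcases p with _ | ⟨i, j⟩
        · show (KU T hT ^ (n : ℤ)) (one2 μ) = one2 μ
          have : ∀ m : ℕ, (KU T hT ^ (m : ℤ)) (one2 μ) = one2 μ := by
            intro m
            induction m with
            | zero => simp
            | succ m ih =>
              have e1 : ((m + 1 : ℕ) : ℤ) = 1 + m := by push_cast; ring
              rw [e1, zpow_add, mul_ap, ih, zpow_one, KU_one2]
          exact this n
        · show (KU T hT ^ (n : ℤ)) ((b ((n : ℤ) * j + (i : ℕ)) : L0 μ) : Lp ℂ 2 μ) =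
            ((b ((n : ℤ) * (j + 1) + (i : ℕ)) : L0 μ) : Lp ℂ 2 μ)
          rw [← U0_pow_coe, pow_b b hb]
          congr 2
          ring
      rw [hstep, hW, hW]
      rcases p with _ | ⟨i, j⟩
      · exact hV0.symm
      · exact (hV i j).symm
  intro f
  rw [hK]
  exact DFunLike.congr_fun hAB f

end

/-! ### the final statements, from the core -/

/-- everything for one transformation -/
theorem all_of_core (h : CoreExists) :
    ∃ (α : Type) (_ : MeasurableSpace α), StandardBorelSpace α ∧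
      ∃ (μ : Measure α) (T : α ≃ᵐ α), ∃ (_ : IsProbabilityMeasure μ) (hT : MeasurePreserving T μ μ),
        NullSingletonClass μ ∧ Ergodic T μ ∧
        ∃ (g : α → ℝ) (b : HilbertBasis ℤ ℂ (L0 μ)), MemLp g 2 μ ∧ ∫ x, g x ∂μ = 0 ∧
          (∀ k, b k = (U0 T hT ^ k) (b 0)) ∧
          ∀ k, ((b k : L0 μ) : Lp ℂ 2 μ) =ᵐ[μ] fun x => ((g (pw T k x) : ℝ) : ℂ) := by
  obtain ⟨α, m, hs, μ, T, hμ, f, w, hc⟩ := h
  obtain ⟨g, b, hg, hg0, hb, hgb⟩ := basis_of_core hc
  exact ⟨α, m, hs, μ, T, hμ, hc.mp, noAtoms_of_basis b hb, ergodic_of_basis b hb, g, b, hg, hg0,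
    hb, hgb⟩

theorem s03251_of (h : CoreExists) :
    ∃ (α : Type) (_ : MeasurableSpace α), StandardBorelSpace α ∧
      ∃ (μ : Measure α) (T : α ≃ᵐ α),
        IsProbabilityMeasure μ ∧ NullSingletonClass μ ∧
        MeasurePreserving (⇑T) μ μ ∧ Ergodic (⇑T) μ ∧
        (∀ f : α → ℂ, MemLp f 2 μ → ∫ x, f x ∂μ = 0 →
          ∃ h : ℝ → ℝ, (∀ t, 0 ≤ h t) ∧ IntervalIntegrable h volume 0 1 ∧
            ∀ n : ℕ, ∫ x, starRingEnd ℂ (f x) * f ((⇑T)^[n] x) ∂μ =
              ∫ t in (0:ℝ)..1, (h t : ℂ) * Complex.exp (2 * π * Complex.I * (n : ℂ) * (t : ℂ))) ∧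
        ∃ k : ℕ, ∃ g : Fin k → α → ℂ, (∀ i, MemLp (g i) 2 μ) ∧
          ∀ f : α → ℂ, MemLp f 2 μ → ∫ x, f x ∂μ = 0 →
            ∀ ε : ℝ, 0 < ε →
              ∃ s : Finset (Fin k × ℕ), ∃ c d : Fin k × ℕ → ℂ,
                eLpNorm (fun x => f x - ∑ p ∈ s,
                    (c p * g p.1 ((⇑T)^[p.2] x) + d p * g p.1 ((⇑T.symm)^[p.2] x))) 2 μ
                  < ENNReal.ofReal ε := by
  obtain ⟨α, m, hs, μ, T, hμ, hT, hna, herg, g, b, hg, hg0, hb, hgb⟩ := all_of_core h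
  exact ⟨α, m, hs, μ, T, hμ, hna, hT, herg, ac_part b hb, fm_part b g hg hgb⟩

/-- Banach's problem (MP_17cd39_an Q2) -/
theorem banach_of (h : CoreExists) :
    ∃ (X : Type) (_ : MeasurableSpace X), StandardBorelSpace X ∧
      ∃ (μ : Measure X) (T : X ≃ᵐ X) (f : X → ℝ),
        IsProbabilityMeasure μ ∧ NullSingletonClass μ ∧ MeasurePreserving T μ μ ∧ Ergodic T μ ∧
        MemLp f 2 μ ∧ ∫ x, f x ∂μ = 0 ∧
        (∀ m n : ℤ, ∫ x, f (((T.toEquiv : Equiv.Perm X) ^ m) x) *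
            f (((T.toEquiv : Equiv.Perm X) ^ n) x) ∂μ = if m = n then 1 else 0) ∧
        (∀ g : X → ℂ, MemLp g 2 μ → ∫ x, g x ∂μ = 0 →
          (∀ n : ℤ, ∫ x, ((f (((T.toEquiv : Equiv.Perm X) ^ n) x) : ℝ) : ℂ) * g x ∂μ = 0) →
          g =ᵐ[μ] 0) := by
  obtain ⟨α, m, hs, μ, T, hμ, hT, hna, herg, g, b, hg, hg0, hb, hgb⟩ := all_of_core h
  exact ⟨α, m, hs, μ, T, g, hμ, hna, hT, herg, hg, hg0, orth_part b g hgb, total_part b g hgb⟩

/-- Finite multiplicity (MP_82655f_an), every `n` -/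
theorem halmos_of.{u} (h : CoreExists) (n : ℕ) (hn : 0 < n) :
    ∃ (X : Type) (_ : MeasurableSpace X), StandardBorelSpace X ∧
      ∃ (m : Measure X) (_ : IsProbabilityMeasure m) (S : X ≃ᵐ X) (hS : MeasurePreserving S m m),
        ∀ (H : Type u) [NormedAddCommGroup H] [InnerProductSpace ℂ H] [CompleteSpace H]
          (β : HilbertBasis (Option (Fin n × ℤ)) ℂ H) (V : H ≃ₗᵢ[ℂ] H),
          V (β none) = β none → (∀ i j, V (β (some (i, j))) = β (some (i, j + 1))) →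
          ∃ W : Lp ℂ 2 m ≃ₗᵢ[ℂ] H, ∀ f : Lp ℂ 2 m,
            W (Lp.compMeasurePreserving S hS f) = V (W f) := by
  obtain ⟨α, m, hs, μ, T, hμ, hT, hna, herg, g, b, hg, hg0, hb, hgb⟩ := all_of_core h
  exact ⟨α, m, hs, μ, hμ, mpw T n, mp_mpw hT n, fun H _ _ _ β V h0 h1 =>
    shift_part b hb n hn (mp_mpw hT n) H β V h0 h1⟩

/-- Lebesgue spectrum of multiplicity one (MP_fd7460_an) -/
theorem spectrum_of (h : CoreExists) :
    ∃ (X : Type) (_ : MeasurableSpace X), StandardBorelSpace X ∧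
      ∃ (μ : Measure X) (φ : X ≃ᵐ X), IsProbabilityMeasure μ ∧ NullSingletonClass μ ∧
        MeasurePreserving φ μ μ ∧ Ergodic φ μ ∧
        ∃ W : Lp ℂ 2 (AddCircle.haarAddCircle : Measure (AddCircle (1:ℝ))) →ₗᵢ[ℂ] Lp ℂ 2 μ,
          (∀ f : Lp ℂ 2 μ, f ∈ Set.range W ↔ ∫ x, f x ∂μ = 0) ∧
          ∀ F G : Lp ℂ 2 (AddCircle.haarAddCircle : Measure (AddCircle (1:ℝ))),
            (∀ᵐ t ∂(AddCircle.haarAddCircle : Measure (AddCircle (1:ℝ))),
              G t = fourier 1 t * F t) →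
            ∀ᵐ x ∂μ, W G x = W F (φ.symm x) := by
  obtain ⟨α, m, hs, μ, T, hμ, hT, hna, herg, g, b, hg, hg0, hb, hgb⟩ := all_of_core h
  refine ⟨α, m, hs, μ, T.symm, hμ, hna, hT.symm T, ?_, spectral_part b hb⟩
  refine ⟨hT.symm T, ⟨fun s hs hsT => herg.aeconst_set hs ?_⟩⟩
  have : (T : α → α) ⁻¹' ((T.symm : α → α) ⁻¹' s) = s := by
    rw [← preimage_comp]
    have : (⇑T.symm ∘ ⇑T) = id := funext fun x => T.symm_apply_apply x
    rw [this, preimage_id]
  rw [hsT] at this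
  exact this

end Pool.Agent.H701R3.BR
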