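import Pool.Agent.H264R4.BF.F_K7
import Pool.Agent.H264R4.BF.F_H7
import Pool.Agent.H264R4.BF.F_H8
import Pool.Agent.H264R4.BF.F_L1
import Pool.Agent.H264R4.BF.F_L2
import Pool.Agent.H264R4.BF.F_L8
import Pool.Agent.H701R3.BR.Final

open MeasureTheory Set Filter Topology

namespace Pool.Agent.H701R3.BR

open Pool.Agent.H750F Pool.Agent.H264R4.BA Pool.Agent.H728R2.BL
open scoped Real

attribute [-instance] WithCStarModule.instCStarModuleComplex


section

variable {X : Type} [MeasurableSpace X] {μ : Measure X} [IsProbabilityMeasure μ]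

omit [IsProbabilityMeasure μ] in
theorem koop_eq (T : X ≃ᵐ X) (hT : MeasurePreserving T μ μ) :
    Sky.koop T hT = (KU T hT)⁻¹ := by
  ext1 v
  rfl

omit [IsProbabilityMeasure μ] in
theorem koop_pow_ae (T : X ≃ᵐ X) (hT : MeasurePreserving T μ μ) (v : Lp ℂ 2 μ) (k : ℤ) :
    ((Sky.koop T hT) ^ k) v =ᵐ[μ] fun x => v (pw T (-k) x) := by
  have h : (Sky.koop T hT) ^ k = (KU T hT) ^ (-k) := by
    rw [koop_eq, inv_zpow, zpow_neg]
  rw [h]
  exact KU_pow_ae T hT v (-k)

theorem one_eq : Sky.ind μ (Set.univ : Set X) = one2 μ :=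
  Sky.ind_eq MeasurableSet.univ (measure_ne_top μ univ)

/-- from complex statements on the Koopman operator to the core -/
theorem core_of_koop (T : X ≃ᵐ X) (hT : MeasurePreserving T μ μ) (f : X → ℝ) (hf : MemLp f 2 μ)
    (hf0 : ∫ x, f x ∂μ = 0) (g : Lp ℂ 2 μ) (hg : g =ᵐ[μ] fun x => ((f x : ℝ) : ℂ)) (r : ℝ → ℝ)
    (hr : IntervalIntegrable r volume 0 1)
    (hpos : ∀ᵐ t ∂(volume.restrict (Set.Ioc (0:ℝ) 1)), 0 < r t)
    (hcor : ∀ n : ℕ, (inner ℂ (((Sky.koop T hT) ^ (n : ℤ)) g) (g)) =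
      ∫ x in (0:ℝ)..1, (r x : ℂ) * Complex.exp (2 * π * Complex.I * (n : ℂ) * (x : ℂ)))
    (hcyc : ∀ u : Lp ℂ 2 μ, (inner ℂ (Sky.ind μ (Set.univ : Set X)) (u)) = 0 → u ∈ Z (Sky.koop T hT) g) :
    Core μ T f r := by
  refine ⟨hT, hf, hf0, hr, hpos, ?_, ?_⟩
  · intro n
    have h1 := hcor n
    have h2 : (inner ℂ (((Sky.koop T hT) ^ (n : ℤ)) g) (g)) = ((∫ x, f x * f ((⇑T)^[n] x) ∂μ : ℝ) : ℂ) := by
      have e1 : (inner ℂ (((Sky.koop T hT) ^ (n : ℤ)) g) (g)) = (inner ℂ (g) ((KU T hT ^ (n : ℤ)) g)) := by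
        rw [koop_eq, inv_zpow, ← LinearIsometryEquiv.inner_map_map (KU T hT ^ (n : ℤ)),
          ← mul_ap, mul_inv_cancel]
        rfl
      rw [e1, L2.inner_def, ← integral_complex_ofReal]
      refine integral_congr_ae ?_
      filter_upwards [hg, KU_pow_ae T hT g n,
        (mp_pw T hT n).quasiMeasurePreserving.ae_eq_comp hg] with x h3 h4 h5
      rw [RCLike.inner_apply, h3, h4]
      have h6 : g (pw T n x) = ((f (pw T n x) : ℝ) : ℂ) := h5
      rw [h6, Complex.conj_ofReal, pw_nat]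
      push_cast
      ring
    rw [h2] at h1
    have h3 := congrArg Complex.re h1
    rw [Complex.ofReal_re] at h3
    rw [h3]
    have hi : IntervalIntegrable (fun x : ℝ => (r x : ℂ) *
        Complex.exp (2 * π * Complex.I * (n : ℂ) * (x : ℂ))) volume 0 1 := by
      have hrc : IntervalIntegrable (fun t => ((r t : ℝ) : ℂ)) volume 0 1 := by
        rw [intervalIntegrable_iff_integrableOn_Ioc_of_le zero_le_one] at hr ⊢
        exact hr.ofReal
      exact hrc.mul_continuousOn (by fun_prop)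
    have h4 : (∫ x in (0:ℝ)..1, (r x : ℂ) *
        Complex.exp (2 * π * Complex.I * (n : ℂ) * (x : ℂ))).re =
        ∫ x in (0:ℝ)..1, ((r x : ℂ) *
        Complex.exp (2 * π * Complex.I * (n : ℂ) * (x : ℂ))).re := by
      rw [intervalIntegral.integral_of_le zero_le_one, intervalIntegral.integral_of_le zero_le_one]
      rw [intervalIntegrable_iff_integrableOn_Ioc_of_le zero_le_one] at hi
      have := integral_re hi
      simpa using this.symm
    rw [h4]
    refine intervalIntegral.integral_congr fun x _ => ?_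
    have e2 : (2 * π * Complex.I * (n : ℂ) * (x : ℂ) : ℂ) = ((2 * π * n * x : ℝ) : ℂ) * Complex.I := by
      push_cast; ring
    show ((r x : ℂ) * Complex.exp (2 * π * Complex.I * (n : ℂ) * (x : ℂ))).re = _
    rw [Complex.re_ofReal_mul, e2, Complex.exp_ofReal_mul_I_re]
  · intro u hu hu0 h
    have huc : MemLp (fun x => ((u x : ℝ) : ℂ)) 2 μ := memLp_c hu
    set v : Lp ℂ 2 μ := huc.toLp _ with hv
    have hv0 : (inner ℂ (Sky.ind μ (Set.univ : Set X)) (v)) = 0 := by
      rw [one_eq]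
      have : v ∈ L0 μ := by
        rw [mem_L0, hv, integral_congr_ae huc.coeFn_toLp, mean_ofReal hu0]
      unfold L0 at this
      rw [Submodule.mem_orthogonal_singleton_iff_inner_right] at this
      exact this
    have hvZ := hcyc v hv0
    have hort : ∀ k : ℤ, (inner ℂ (((Sky.koop T hT) ^ k) g) (v)) = 0 := by
      intro k
      rw [L2.inner_def]
      have h1 := h (-k)
      have h2 : ∫ x, (inner ℂ ((((Sky.koop T hT) ^ k) g : Lp ℂ 2 μ) x) (v x)) ∂μ =
          ((∫ x, f (pw T (-k) x) * u x ∂μ : ℝ) : ℂ) := by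
        rw [← integral_complex_ofReal]
        refine integral_congr_ae ?_
        filter_upwards [koop_pow_ae T hT g k, huc.coeFn_toLp,
          (mp_pw T hT (-k)).quasiMeasurePreserving.ae_eq_comp hg] with x h3 h4 h5
        have h6 : g (pw T (-k) x) = ((f (pw T (-k) x) : ℝ) : ℂ) := h5
        rw [RCLike.inner_apply, h3, h6, Complex.conj_ofReal, hv, h4]
        push_cast
        ring
      rw [h2, h1]
      rfl
    have hzero : ∀ w ∈ Z (Sky.koop T hT) g, (inner ℂ (w) (v)) = 0 := by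
      intro w hw
      have hw' : w ∈ closure ((Submodule.span ℂ (range fun n : ℤ => ((Sky.koop T hT) ^ n) g) :
        Submodule ℂ (Lp ℂ 2 μ)) : Set (Lp ℂ 2 μ)) := hw
      have hcl : IsClosed {w : Lp ℂ 2 μ | (inner ℂ (w) (v)) = 0} :=
        isClosed_eq (continuous_id.inner continuous_const) continuous_const
      refine closure_minimal ?_ hcl hw'
      intro x hx
      induction hx using Submodule.span_induction with
      | mem x hx => obtain ⟨k, rfl⟩ := hx; exact hort k
      | zero => simp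
      | add x y _ _ hx hy =>
        have h1 : (inner ℂ (x) (v)) = 0 := hx
        have h2 : (inner ℂ (y) (v)) = 0 := hy
        show (inner ℂ (x + y) (v)) = 0
        rw [inner_add_left, h1, h2, add_zero]
      | smul a x _ hx =>
        have h1 : (inner ℂ (x) (v)) = 0 := hx
        show (inner ℂ (a • x) (v)) = 0
        rw [inner_smul_left, h1, mul_zero]
    have hvv := hzero v hvZ
    have hv00 : v = 0 := inner_self_eq_zero.mp hvv
    have h7 := huc.coeFn_toLp
    rw [← hv, hv00] at h7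
    filter_upwards [h7, Lp.coeFn_zero ℂ 2 μ] with x h8 h9
    rw [h9] at h8
    exact (Complex.ofReal_eq_zero.mp h8.symm)

end

/-- K10 -/
theorem core_of_good (L : ℕ → Lev) (σ : ∀ k, DStep (L k) (L (k + 1))) (G : Good L σ) :
    CoreExists := by
  obtain ⟨M⟩ := exists_model (toOD L σ G)
  set D := toOD L σ G with hD
  obtain ⟨r, hr0, hri, hrpos, hrlim⟩ := G.dens
  have hprob : IsProbabilityMeasure (mu D) := ⟨mu_univ D⟩
  have hHD := model_HD L σ G M
  obtain ⟨c0⟩ : Nonempty (L 0).Θ := (L 0).ne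
  set E : Set (Bs D × ℕ) := Lv D 0 c0 0 with hE
  have hEm : MeasurableSet E := measurable_Lv D 0 c0 0
  set U := Sky.koop M.T M.mp with hU
  set g : Lp ℂ 2 (mu D) := U (Sky.ind (mu D) E) - Sky.ind (mu D) E with hg
  have hEm' : MeasurableSet (M.T.symm ⁻¹' E) := M.T.symm.measurable hEm
  set f : Bs D × ℕ → ℝ := fun x => (M.T.symm ⁻¹' E).indicator (fun _ => (1:ℝ)) x -
    E.indicator (fun _ => (1:ℝ)) x with hf
  have hind : ∀ s : Set (Bs D × ℕ), MeasurableSet s →
      (Sky.ind (mu D) s : Lp ℂ 2 (mu D)) =ᵐ[mu D]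
        fun x => ((s.indicator (fun _ => (1:ℝ)) x : ℝ) : ℂ) := by
    intro s hs
    rw [Sky.ind_eq hs (measure_ne_top _ _)]
    refine indicatorConstLp_coeFn.trans (Eventually.of_forall fun x => ?_)
    by_cases hx : x ∈ s
    · simp [hx]
    · simp [hx]
  have hgf : g =ᵐ[mu D] fun x => ((f x : ℝ) : ℂ) := by
    rw [hg, hU, Sky.koop_ind]
    filter_upwards [Lp.coeFn_sub (Sky.ind (mu D) (M.T.symm ⁻¹' E)) (Sky.ind (mu D) E),
      hind _ hEm', hind _ hEm] with x h1 h2 h3
    rw [h1, Pi.sub_apply, h2, h3, hf]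
    push_cast
    rfl
  have hfL : MemLp f 2 (mu D) :=
    ((memLp_const (1:ℝ)).indicator hEm').sub ((memLp_const (1:ℝ)).indicator hEm)
  have hf0 : ∫ x, f x ∂(mu D) = 0 := by
    rw [hf, integral_sub ((integrable_const (1:ℝ)).indicator hEm')
      ((integrable_const (1:ℝ)).indicator hEm), integral_indicator_const _ hEm',
      integral_indicator_const _ hEm]
    have : (mu D).real (M.T.symm ⁻¹' E) = (mu D).real E := by
      unfold Measure.real
      rw [(M.mp.symm M.T).measure_preimage hEm.nullMeasurableSet]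
    rw [this, sub_self]
  have hsb : StandardBorelSpace (Bs D × ℕ) := inferInstance
  refine ⟨Bs D × ℕ, inferInstance, hsb, mu D, M.T, hprob, f, r, ?_⟩
  refine core_of_koop M.T M.mp f hfL hf0 g hgf r hri hrpos ?_ ?_
  · intro n
    exact density G hHD c0 r hri hrlim n
  · intro u hu
    exact cyclic G hHD c0 u hu

end Pool.Agent.H701R3.BR
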