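import Pool.Agent.H750F.Spec

open MeasureTheory Set Filter Topology

namespace Pool.Agent.H701R3.BR

open Pool.Agent.H750F

variable {α : Type} [MeasurableSpace α] {μ : Measure α}


/-- integer powers of the transformation -/
def pw (T : α ≃ᵐ α) (k : ℤ) : α → α := fun x => ((T.toEquiv : Equiv.Perm α) ^ k) x

theorem pw_nat (T : α ≃ᵐ α) (n : ℕ) : pw T (n : ℤ) = (⇑T)^[n] := by
  show ⇑((T.toEquiv : Equiv.Perm α) ^ (n : ℤ)) = _
  rw [zpow_natCast, ← Equiv.Perm.iterate_eq_pow]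
  rfl

theorem pw_neg_nat (T : α ≃ᵐ α) (n : ℕ) : pw T (-(n : ℤ)) = (⇑T.symm)^[n] := by
  show ⇑((T.toEquiv : Equiv.Perm α) ^ (-(n : ℤ))) = _
  rw [zpow_neg, ← inv_zpow, zpow_natCast, ← Equiv.Perm.iterate_eq_pow]
  rfl

theorem pw_zero (T : α ≃ᵐ α) (x : α) : pw T 0 x = x := by
  show ((T.toEquiv : Equiv.Perm α) ^ (0 : ℤ)) x = x
  simp

theorem pw_add (T : α ≃ᵐ α) (j k : ℤ) (x : α) : pw T (j + k) x = pw T j (pw T k x) := by
  show ((T.toEquiv : Equiv.Perm α) ^ (j + k)) x = _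
  rw [zpow_add]
  rfl

theorem pw_one (T : α ≃ᵐ α) : pw T 1 = T := by
  have := pw_nat T 1
  simpa using this

theorem mp_pw (T : α ≃ᵐ α) (hT : MeasurePreserving T μ μ) (k : ℤ) :
    MeasurePreserving (pw T k) μ μ := by
  obtain ⟨n, rfl | rfl⟩ := Int.eq_nat_or_neg k
  · rw [pw_nat]; exact hT.iterate n
  · rw [pw_neg_nat]; exact (hT.symm T).iterate n

/-- the Koopman operator on `L²(μ)` -/
noncomputable def KU (T : α ≃ᵐ α) (hT : MeasurePreserving T μ μ) :
    Lp ℂ 2 μ ≃ₗᵢ[ℂ] Lp ℂ 2 μ where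
  toLinearEquiv := LinearEquiv.ofLinearMap
    (Lp.compMeasurePreservingₗ ℂ T hT) (Lp.compMeasurePreservingₗ ℂ T.symm (hT.symm T))
    (by
      ext1 v
      refine Lp.ext ?_
      have h1 := Lp.coeFn_compMeasurePreserving
        (Lp.compMeasurePreservingₗ ℂ (⇑T.symm) (hT.symm T) v) hT
      have h2 := hT.quasiMeasurePreserving.ae_eq_comp
        (Lp.coeFn_compMeasurePreserving v (hT.symm T))
      refine h1.trans (h2.trans ?_)
      refine Eventually.of_forall fun x => ?_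
      show v (T.symm (T x)) = v x
      rw [MeasurableEquiv.symm_apply_apply])
    (by
      ext1 v
      refine Lp.ext ?_
      have h1 := Lp.coeFn_compMeasurePreserving
        (Lp.compMeasurePreservingₗ ℂ (⇑T) hT v) (hT.symm T)
      have h2 := (hT.symm T).quasiMeasurePreserving.ae_eq_comp
        (Lp.coeFn_compMeasurePreserving v hT)
      refine h1.trans (h2.trans ?_)
      refine Eventually.of_forall fun x => ?_
      show v (T (T.symm x)) = v x
      rw [MeasurableEquiv.apply_symm_apply])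
  norm_map' := fun v => Lp.norm_compMeasurePreserving v hT

theorem KU_ae (T : α ≃ᵐ α) (hT : MeasurePreserving T μ μ) (v : Lp ℂ 2 μ) :
    KU T hT v =ᵐ[μ] fun x => v (T x) :=
  Lp.coeFn_compMeasurePreserving v hT

theorem KU_symm_ae (T : α ≃ᵐ α) (hT : MeasurePreserving T μ μ) (v : Lp ℂ 2 μ) :
    (KU T hT).symm v =ᵐ[μ] fun x => v (T.symm x) :=
  Lp.coeFn_compMeasurePreserving v (hT.symm T)

theorem KU_pow_ae (T : α ≃ᵐ α) (hT : MeasurePreserving T μ μ) (v : Lp ℂ 2 μ) (k : ℤ) :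
    ((KU T hT) ^ k) v =ᵐ[μ] fun x => v (pw T k x) := by
  obtain ⟨n, rfl | rfl⟩ := Int.eq_nat_or_neg k
  · induction n with
    | zero =>
      refine Eventually.of_forall fun x => ?_
      simp [pw_zero]
    | succ n ih =>
      have e : ((KU T hT) ^ ((n + 1 : ℕ) : ℤ)) v = (KU T hT) (((KU T hT) ^ (n : ℤ)) v) := by
        rw [← mul_ap, ← zpow_one_add]
        congr 2
        push_cast
        ring
      rw [e]
      refine (KU_ae T hT _).trans ?_
      have h2 := hT.quasiMeasurePreserving.ae_eq_comp ih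
      refine h2.trans (Eventually.of_forall fun x => ?_)
      show v (pw T n (T x)) = v (pw T ((n + 1 : ℕ) : ℤ) x)
      rw [Nat.cast_succ, pw_add, pw_one]
  · induction n with
    | zero =>
      refine Eventually.of_forall fun x => ?_
      simp [pw_zero]
    | succ n ih =>
      have e : ((KU T hT) ^ (-((n + 1 : ℕ) : ℤ))) v = (KU T hT).symm (((KU T hT) ^ (-(n : ℤ))) v) := by
        have : (KU T hT).symm = (KU T hT)⁻¹ := rfl
        rw [this, ← mul_ap, ← zpow_neg_one, ← zpow_add]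
        congr 2
        push_cast
        ring
      rw [e]
      refine (KU_symm_ae T hT _).trans ?_
      have h2 := (hT.symm T).quasiMeasurePreserving.ae_eq_comp ih
      refine h2.trans (Eventually.of_forall fun x => ?_)
      show v (pw T (-(n : ℤ)) (T.symm x)) = v (pw T (-((n + 1 : ℕ) : ℤ)) x)
      have h3 : T.symm x = pw T (-1) x := by
        have := pw_neg_nat T 1
        simp only [Nat.cast_one, Function.iterate_one] at this
        rw [this]
      rw [h3, ← pw_add]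
      congr 2
      push_cast
      ring

section L0

variable [IsProbabilityMeasure μ]

variable (μ) in
/-- the constant function one -/
noncomputable def one2 : Lp ℂ 2 μ :=
  indicatorConstLp 2 MeasurableSet.univ (measure_ne_top μ univ) (1 : ℂ)

theorem one2_ae : one2 μ =ᵐ[μ] fun _ => (1 : ℂ) := by
  refine (indicatorConstLp_coeFn (p := 2) (hs := MeasurableSet.univ)
    (hμs := measure_ne_top μ univ) (c := (1:ℂ))).trans ?_
  simp

variable (μ) in
/-- the mean-zero functions -/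
noncomputable def L0 : Submodule ℂ (Lp ℂ 2 μ) := (ℂ ∙ (one2 μ))ᗮ

instance : CompleteSpace (L0 μ) := by
  unfold L0; infer_instance

theorem mem_L0 (v : Lp ℂ 2 μ) : v ∈ L0 μ ↔ ∫ x, v x ∂μ = 0 := by
  unfold L0
  rw [Submodule.mem_orthogonal_singleton_iff_inner_right]
  unfold one2
  rw [L2.inner_indicatorConstLp_one, Measure.restrict_univ]

theorem KU_one2 (T : α ≃ᵐ α) (hT : MeasurePreserving T μ μ) : KU T hT (one2 μ) = one2 μ := by
  refine Lp.ext ((KU_ae T hT _).trans ?_)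
  exact (hT.quasiMeasurePreserving.ae_eq_comp one2_ae).trans one2_ae.symm

theorem KU_mem (T : α ≃ᵐ α) (hT : MeasurePreserving T μ μ) (v : Lp ℂ 2 μ) :
    KU T hT v ∈ L0 μ ↔ v ∈ L0 μ := by
  unfold L0
  rw [Submodule.mem_orthogonal_singleton_iff_inner_right,
    Submodule.mem_orthogonal_singleton_iff_inner_right]
  conv_lhs => rw [← KU_one2 T hT]
  rw [LinearIsometryEquiv.inner_map_map]

/-- the Koopman operator on mean-zero functions -/
noncomputable def U0 (T : α ≃ᵐ α) (hT : MeasurePreserving T μ μ) : L0 μ ≃ₗᵢ[ℂ] L0 μ where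
  toLinearEquiv := (KU T hT).toLinearEquiv.ofSubmodules (L0 μ) (L0 μ) (by
    ext v
    simp only [Submodule.mem_map]
    constructor
    · rintro ⟨w, hw, rfl⟩
      exact (KU_mem T hT w).mpr hw
    · intro hv
      refine ⟨(KU T hT).symm v, ?_, (KU T hT).apply_symm_apply v⟩
      rw [← KU_mem T hT, LinearIsometryEquiv.apply_symm_apply]
      exact hv)
  norm_map' := fun v => (KU T hT).norm_map v

theorem U0_coe (T : α ≃ᵐ α) (hT : MeasurePreserving T μ μ) (v : L0 μ) :
    ((U0 T hT v : L0 μ) : Lp ℂ 2 μ) = KU T hT v := rfl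

theorem U0_pow_coe (T : α ≃ᵐ α) (hT : MeasurePreserving T μ μ) (v : L0 μ) (k : ℤ) :
    (((U0 T hT ^ k) v : L0 μ) : Lp ℂ 2 μ) = (KU T hT ^ k) v := by
  obtain ⟨n, rfl | rfl⟩ := Int.eq_nat_or_neg k
  · induction n with
    | zero => simp
    | succ n ih =>
      have e1 : ((KU T hT) ^ ((n + 1 : ℕ) : ℤ)) (v : Lp ℂ 2 μ)
          = (KU T hT) (((KU T hT) ^ (n : ℤ)) v) := by
        rw [← mul_ap, ← zpow_one_add]; congr 2; push_cast; ring
      have e2 : ((U0 T hT) ^ ((n + 1 : ℕ) : ℤ)) v = (U0 T hT) (((U0 T hT) ^ (n : ℤ)) v) := by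
        rw [← mul_ap, ← zpow_one_add]; congr 2; push_cast; ring
      rw [e1, e2, U0_coe, ih]
  · induction n with
    | zero => simp
    | succ n ih =>
      have e1 : (KU T hT) (((KU T hT) ^ (-((n + 1 : ℕ) : ℤ))) (v : Lp ℂ 2 μ))
          = (((KU T hT) ^ (-(n : ℤ))) v) := by
        rw [← mul_ap, ← zpow_one_add]; congr 2; push_cast; ring
      have e2 : (U0 T hT) (((U0 T hT) ^ (-((n + 1 : ℕ) : ℤ))) v)
          = (((U0 T hT) ^ (-(n : ℤ))) v) := by
        rw [← mul_ap, ← zpow_one_add]; congr 2; push_cast; ring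
      have e3 : KU T hT ((((U0 T hT) ^ (-((n + 1 : ℕ) : ℤ))) v : L0 μ) : Lp ℂ 2 μ) =
          KU T hT (((KU T hT) ^ (-((n + 1 : ℕ) : ℤ))) (v : Lp ℂ 2 μ)) := by
        rw [← U0_coe, e2, ih, e1]
      exact (KU T hT).injective e3

theorem U0_pow_ae (T : α ≃ᵐ α) (hT : MeasurePreserving T μ μ) (v : L0 μ) (k : ℤ) :
    (((U0 T hT ^ k) v : L0 μ) : Lp ℂ 2 μ) =ᵐ[μ] fun x => (v : Lp ℂ 2 μ) (pw T k x) := by
  rw [U0_pow_coe]
  exact KU_pow_ae T hT v k

end L0

end Pool.Agent.H701R3.BR
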