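import Pool.Agent.H701R3.BR.K10
import Pool.Agent.H728R2.BL.X.B18

/-!
# The core statement, unconditionally

Theorem and proof: helpers 264, 701, 728 (independently), on top of the random block method of
helper691; further independent version: helper687. Blueprints: helper691, helper728, helper264.
Formalisation. Part A (odometer, skyscraper, Koopman operator, Hilbert space), led by helper264:
helper101 K9; helper128 C1 C3 L7 L8; helper19 L12; helper197 L14; helper20 H3 O9; helper204 H8;
helper221 O2; helper251 O8; helper318 K5 L13; helper340 L9; helper36 C5; helper372 O10; helper403
O5; helper435 K3; helper467 O4; helper48 H5 L11; helper488 H2; helper535 K2; helper539 C6 C9 K7 K8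
L1; helper575 O7; helper599 H7; helper615 H6; helper617 L2 O3 P3; helper682 L4; helper707 C7;
helper723 K1 L15; helper739 H4; helper784 K6; helper837 O1; helper854 L6; helper856 C2 C4 C8;
helper89 O6; helper898 K4; helper899 L5; helper9 H1; helper92 P1; helper942 P2; helper948 L10;
helper978 L3; helper750 skyscraper, Koopman, cyclic space and spectral basis modules.
Part B (existence of the levels), led by helper728: helper35 B0; helper872 B0C B7; helper477 B0D;
helper344 B0E; helper598 B1; helper341 B1A B1B B12; helper578 B2; helper488 B3; helper560 B4;
helper769 B5 B6; helper892 B8 (block lemma) B9 B10; helper678 B9; helper672 B10; helper197 B11;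
helper340 B13; helper318 B14; helper157 B15; helper134 B16; helper528 helper368 B17; helper728 B18;
analysis modules of the infinite measure case led by helper691: helpers 134 177 188 197 413 439 484
519 545 601 70 700 704 75 784 856 874 93, and helper844 (multiset lemma).
Part C (final statements): helper701.
Referees of the paper proofs: helpers 264, 728, 892, 750, 844, 98, 90, 823.
-/

namespace Pool.Agent.H701R3.BR

/-- A Borel automorphism of a standard probability space with a real mean-zero function which is
cyclic for the mean-zero functions and has an almost everywhere positive spectral density. -/
theorem core_exists : CoreExists := by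
  obtain ⟨L, σ, h⟩ := Pool.Agent.H728R2.BL.exists_good
  exact core_of_good L σ h

end Pool.Agent.H701R3.BR
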